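import Pool.Agent.Lib.MP_aa9b81_an.CutM.S

/-!
# Cutting theorem, part B
-/

noncomputable section

namespace Pool.Agent.Lib.MP_aa9b81_an.Cut

section PartBA1

open scoped ENNReal Topology ZeroAtInfty
open Filter Topology Set

section IsoU

variable (Γ : Type) {X Y Z : Type} [Group Γ] [TopologicalSpace X] [MulAction Γ X]
  [TopologicalSpace Y] [MulAction Γ Y] [TopologicalSpace Z] [MulAction Γ Z]

/-- The map `p : Z → Y` induces an isomorphism on `K₁`, in terms of units. -/
def IsoU (p : Z → Y) : Prop :=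
  (∀ u ∈ GL1 (cp Γ Y), pullU p u ∈ E1 (cp Γ Z) → u ∈ E1 (cp Γ Y)) ∧
    ∀ v ∈ GL1 (cp Γ Z), ∃ u ∈ GL1 (cp Γ Y), (pullU p u)⁻¹ * v ∈ E1 (cp Γ Z)

variable {Γ}

/-- PROOF: `K1.map_injective`, `K1.map_surjective`, `K1.of_map_injective`, `K1.of_map_surjective`
(`isClosed_cp`, `pullU` is `Units.map`). -/
theorem isoU_iff {p : Z → Y} (hp : IsProperMap p) (he : ∀ (g : Γ) z, p (g • z) = g • p z) :
    IsoU Γ p ↔ Function.Bijective (K1.pull (Γ := Γ) p hp he) := by
  constructor
  · rintro ⟨h1, h2⟩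
    exact ⟨K1.map_injective isClosed_cp isClosed_cp (continuous_pull p) (pull_mem_cp hp he) h1,
      K1.map_surjective isClosed_cp (continuous_pull p) (pull_mem_cp hp he) h2⟩
  · rintro ⟨h1, h2⟩
    exact ⟨fun u hu hu' => K1.of_map_injective isClosed_cp isClosed_cp (continuous_pull p)
        (pull_mem_cp hp he) h1 hu hu',
      fun v hv => K1.of_map_surjective isClosed_cp (continuous_pull p) (pull_mem_cp hp he) h2 hv⟩

omit [TopologicalSpace X] [MulAction Γ X] [TopologicalSpace Y] [MulAction Γ Y]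
  [TopologicalSpace Z] [MulAction Γ Z] in
theorem BA1_pullU_comp (p : Z → Y) (q : X → Z) (u : (Fam Γ Y)ˣ) :
    pullU (p ∘ q) u = pullU q (pullU p u) :=
  Units.ext (Fam.ext fun _ => rfl)

theorem BA1_mem_GL1 {p : Z → Y} (hp : IsProperMap p) (he : ∀ (g : Γ) z, p (g • z) = g • p z)
    {u : (Fam Γ Y)ˣ} (hu : u ∈ GL1 (cp Γ Y)) : pullU p u ∈ GL1 (cp Γ Z) :=
  GL1_map (pull_mem_cp hp he) hu

theorem BA1_mem_E1 {p : Z → Y} (hp : IsProperMap p) (he : ∀ (g : Γ) z, p (g • z) = g • p z)
    {u : (Fam Γ Y)ˣ} (hu : u ∈ E1 (cp Γ Y)) : pullU p u ∈ E1 (cp Γ Z) :=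
  E1_map (pull_norm_le p) (pull_mem_cp hp he) hu

/-- PROOF: `pullU (p ∘ q) = pullU q ∘ pullU p`. Injectivity is clear. Surjectivity: for `v` over `X`
choose `w` over `Z` with `(pullU q w)⁻¹ v ∈ E1`, then `u` over `Y` with `(pullU p u)⁻¹ w ∈ E1`;
`(pullU q (pullU p u))⁻¹ v = (pullU q ((pullU p u)⁻¹ w)) ((pullU q w)⁻¹ v)`, `E1_map`
(`pull_norm_le`, `pull_mem_cp`). -/
theorem IsoU.comp {p : Z → Y} {q : X → Z} (hp : IsProperMap p)
    (hep : ∀ (g : Γ) x, p (g • x) = g • p x) (hq : IsProperMap q)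
    (heq : ∀ (g : Γ) x, q (g • x) = g • q x) (h1 : IsoU Γ p) (h2 : IsoU Γ q) :
    IsoU Γ (p ∘ q) := by
  constructor
  · intro u hu hu'
    rw [BA1_pullU_comp] at hu'
    exact h1.1 u hu (h2.1 _ (BA1_mem_GL1 hp hep hu) hu')
  · intro v hv
    obtain ⟨w, hw, hw'⟩ := h2.2 v hv
    obtain ⟨u, hu, hu'⟩ := h1.2 w hw
    refine ⟨u, hu, ?_⟩
    have h3 := BA1_mem_E1 hq heq hu'
    rw [map_mul, map_inv] at h3
    rw [BA1_pullU_comp]
    have h4 := mul_mem h3 hw'
    rwa [mul_assoc, mul_inv_cancel_left] at h4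

/-- PROOF: as before. Injectivity of `q^*` is used for surjectivity of `p^*`: for `w` over `Z` choose
`u` with `(pullU (p ∘ q) u)⁻¹ pullU q w ∈ E1`, i.e. `pullU q ((pullU p u)⁻¹ w) ∈ E1`, so
`(pullU p u)⁻¹ w ∈ E1` by injectivity of `q^*` (it is in `GL1`). Injectivity of `p^*`: if
`pullU p u ∈ E1` then `pullU (p ∘ q) u ∈ E1`. -/
theorem IsoU.of_comp {p : Z → Y} {q : X → Z} (hp : IsProperMap p)
    (hep : ∀ (g : Γ) x, p (g • x) = g • p x) (hq : IsProperMap q)
    (heq : ∀ (g : Γ) x, q (g • x) = g • q x) (h1 : IsoU Γ (p ∘ q)) (h2 : IsoU Γ q) :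
    IsoU Γ p := by
  constructor
  · intro u hu hu'
    refine h1.1 u hu ?_
    rw [BA1_pullU_comp]
    exact BA1_mem_E1 hq heq hu'
  · intro w hw
    obtain ⟨u, hu, hu'⟩ := h1.2 (pullU q w) (BA1_mem_GL1 hq heq hw)
    refine ⟨u, hu, h2.1 _ (mul_mem (inv_mem (BA1_mem_GL1 hp hep hu)) hw) ?_⟩
    rw [map_mul, map_inv, ← BA1_pullU_comp]
    exact hu'

/-- PROOF: `pullU e` has the inverse `pullU e.symm` (both map `GL1` to `GL1` and `E1` to `E1`). -/
theorem IsoU.of_homeomorph (e : Z ≃ₜ Y) (he : ∀ (g : Γ) z, e (g • z) = g • e z) :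
    IsoU Γ (e : Z → Y) := by
  have he' : ∀ (g : Γ) y, e.symm (g • y) = g • e.symm y := by
    intro g y
    rw [Homeomorph.symm_apply_eq, he, Homeomorph.apply_symm_apply]
  have hp : IsProperMap (e : Z → Y) := e.isProperMap
  have hp' : IsProperMap (e.symm : Y → Z) := e.symm.isProperMap
  have h1 : ∀ u : (Fam Γ Y)ˣ, pullU (e.symm : Y → Z) (pullU (e : Z → Y) u) = u := by
    intro u
    refine Units.ext (Fam.ext fun y => ?_)
    change (u : Fam Γ Y) (e (e.symm y)) = (u : Fam Γ Y) y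
    rw [Homeomorph.apply_symm_apply]
  have h2 : ∀ u : (Fam Γ Z)ˣ, pullU (e : Z → Y) (pullU (e.symm : Y → Z) u) = u := by
    intro u
    refine Units.ext (Fam.ext fun y => ?_)
    change (u : Fam Γ Z) (e.symm (e y)) = (u : Fam Γ Z) y
    rw [Homeomorph.symm_apply_apply]
  constructor
  · intro u _ hu'
    have h3 := BA1_mem_E1 hp' he' hu'
    rwa [h1] at h3
  · intro v hv
    refine ⟨pullU (e.symm : Y → Z) v, BA1_mem_GL1 hp' he' hv, ?_⟩
    rw [h2, inv_mul_cancel]
    exact one_mem _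

end IsoU

end PartBA1

section PartBA2

open scoped ENNReal Topology ZeroAtInfty
open Filter Topology Set

/-! ### Invariant subsets -/

/-- An invariant subset of a `Γ`-space. -/
structure InvSet (Γ P : Type) [Group Γ] [MulAction Γ P] where
  /-- the set -/
  carrier : Set P
  inv : ∀ (g : Γ) p, p ∈ carrier → g • p ∈ carrier

namespace InvSet

variable {Γ P : Type} [Group Γ] [MulAction Γ P]

/-- The points of the invariant subset. -/
def Pt (A : InvSet Γ P) : Type := A.carrier

/-- The inclusion into the space. -/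
def val (A : InvSet Γ P) (x : A.Pt) : P := x.1

lemma val_mem (A : InvSet Γ P) (x : A.Pt) : A.val x ∈ A.carrier := x.2

lemma val_injective (A : InvSet Γ P) : Function.Injective A.val := Subtype.val_injective

/-- The point of the subset. -/
def pt (A : InvSet Γ P) (p : P) (h : p ∈ A.carrier) : A.Pt := ⟨p, h⟩

@[simp] lemma val_pt (A : InvSet Γ P) (p : P) (h : p ∈ A.carrier) : A.val (A.pt p h) = p := rfl

instance (A : InvSet Γ P) : MulAction Γ A.Pt where
  smul g x := ⟨g • x.1, A.inv g x.1 x.2⟩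
  one_smul x := Subtype.ext (one_smul Γ x.1)
  mul_smul g h x := Subtype.ext (mul_smul g h x.1)

@[simp] lemma val_smul (A : InvSet Γ P) (g : Γ) (x : A.Pt) : A.val (g • x) = g • A.val x := rfl

/-- The inclusion of a subset into a bigger one. -/
def incl {A B : InvSet Γ P} (h : A.carrier ⊆ B.carrier) : A.Pt → B.Pt := fun x => ⟨x.1, h x.2⟩

@[simp] lemma val_incl {A B : InvSet Γ P} (h : A.carrier ⊆ B.carrier) (x : A.Pt) :
    B.val (incl h x) = A.val x := rfl

lemma incl_smul {A B : InvSet Γ P} (h : A.carrier ⊆ B.carrier) (g : Γ) (x : A.Pt) :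
    incl h (g • x) = g • incl h x := rfl

variable [TopologicalSpace P]

instance (A : InvSet Γ P) : TopologicalSpace A.Pt := inferInstanceAs (TopologicalSpace A.carrier)

instance [T2Space P] (A : InvSet Γ P) : T2Space A.Pt := inferInstanceAs (T2Space A.carrier)

lemma continuous_val (A : InvSet Γ P) : Continuous A.val := continuous_subtype_val

lemma isEmbedding_val (A : InvSet Γ P) : IsEmbedding A.val := IsEmbedding.subtypeVal

instance [ContinuousConstSMul Γ P] (A : InvSet Γ P) : ContinuousConstSMul Γ A.Pt :=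
  ⟨fun g => Continuous.subtype_mk (continuous_subtype_val.const_smul g) _⟩

/-- PROOF: a locally closed subset of a locally compact Hausdorff space is locally compact
(`IsLocallyClosed` API; or closed, resp. open, embeddings). -/
theorem locallyCompactSpace [T2Space P] [LocallyCompactSpace P] (A : InvSet Γ P)
    (h : IsLocallyClosed A.carrier) : LocallyCompactSpace A.Pt :=
  h.locallyCompactSpace

/-- `incl` is an embedding. -/
theorem BA2_isEmbedding {A B : InvSet Γ P} (h : A.carrier ⊆ B.carrier) :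
    IsEmbedding (incl h) := by
  have h1 : IsEmbedding (B.val ∘ incl h) := A.isEmbedding_val
  refine IsEmbedding.of_comp ?_ B.continuous_val h1
  exact B.isEmbedding_val.continuous_iff.2 h1.continuous

omit [TopologicalSpace P] in
/-- The range of `incl`. -/
theorem BA2_range {A B : InvSet Γ P} (h : A.carrier ⊆ B.carrier) :
    range (incl h) = B.val ⁻¹' A.carrier := by
  ext x
  constructor
  · rintro ⟨y, rfl⟩
    exact y.2
  · intro hx
    exact ⟨⟨x.1, hx⟩, rfl⟩

omit [TopologicalSpace P] in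
/-- The range of the product. -/
theorem BA2_range_prod {A B : InvSet Γ P} (h : A.carrier ⊆ B.carrier) {V : Type} :
    range (Prod.map (incl h) (id : V → V)) = (B.val ⁻¹' A.carrier) ×ˢ univ := by
  rw [Set.range_prodMap, BA2_range, Set.range_id]

/-- PROOF: `incl` is an embedding (`val ∘ incl = val`) with the range `B.val ⁻¹' A.carrier`, closed if
`A.carrier` is closed. For the product with `id`: an embedding with closed range. -/
theorem isClosedEmbedding_incl {A B : InvSet Γ P} (h : A.carrier ⊆ B.carrier)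
    (hA : IsClosed A.carrier) {V : Type} [TopologicalSpace V] :
    IsClosedEmbedding (Prod.map (incl h) (id : V → V)) := by
  refine ⟨(BA2_isEmbedding h).prodMap IsEmbedding.id, ?_⟩
  rw [BA2_range_prod]
  exact (hA.preimage B.continuous_val).prod isClosed_univ

/-- PROOF: `S = B ∖ A` with `A` closed: the range of `incl` is `B.val ⁻¹' (A.carrier)ᶜ`, open. -/
theorem isOpenEmbedding_incl {A B S : InvSet Γ P} (h : S.carrier ⊆ B.carrier)
    (hS : S.carrier = B.carrier \ A.carrier) (hA : IsClosed A.carrier) {V : Type}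
    [TopologicalSpace V] : IsOpenEmbedding (Prod.map (incl h) (id : V → V)) := by
  refine ⟨(BA2_isEmbedding h).prodMap IsEmbedding.id, ?_⟩
  rw [BA2_range_prod]
  have h1 : B.val ⁻¹' S.carrier = B.val ⁻¹' (A.carrier)ᶜ := by
    ext x
    rw [mem_preimage, mem_preimage, hS]
    exact ⟨fun hx => hx.2, fun hx => ⟨x.2, hx⟩⟩
  rw [h1]
  exact (hA.isOpen_compl.preimage B.continuous_val).prod isOpen_univ

omit [TopologicalSpace P] in
/-- PROOF: set theory. -/
theorem range_incl_compl {A B S : InvSet Γ P} (hS : S.carrier ⊆ B.carrier)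
    (hA : A.carrier ⊆ B.carrier) (h : S.carrier = B.carrier \ A.carrier) {V : Type} :
    range (Prod.map (incl hS) (id : V → V)) = (range (Prod.map (incl hA) (id : V → V)))ᶜ := by
  rw [BA2_range_prod, BA2_range_prod]
  ext ⟨x, y⟩
  simp only [mem_prod, mem_univ, and_true, mem_compl_iff, mem_preimage]
  rw [h]
  exact ⟨fun hx => hx.2, fun hx => ⟨x.2, hx⟩⟩

end InvSet

end PartBA2

section PartBB1

open scoped ENNReal Topology ZeroAtInfty
open Filter Topology Set

/-- The space `[0,1]^(ℕ × Γ)` of configurations, with the shift action on the second coordinate. -/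
def Cfg (Γ : Type) : Type := ℕ × Γ → Icc (0 : ℝ) 1

instance (Γ : Type) : TopologicalSpace (Cfg Γ) :=
  inferInstanceAs (TopologicalSpace (ℕ × Γ → Icc (0 : ℝ) 1))

instance (Γ : Type) : T2Space (Cfg Γ) := inferInstanceAs (T2Space (ℕ × Γ → Icc (0 : ℝ) 1))

instance (Γ : Type) : CompactSpace (Cfg Γ) :=
  inferInstanceAs (CompactSpace (ℕ × Γ → Icc (0 : ℝ) 1))

variable {Γ : Type} [Group Γ]

instance : MulAction Γ (Cfg Γ) where
  smul h t := fun q => t (q.1, h⁻¹ * q.2)
  one_smul t := funext fun q => by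
    change t (q.1, 1⁻¹ * q.2) = t q
    rw [inv_one, one_mul]
  mul_smul h k t := funext fun q => by
    change t (q.1, (h * k)⁻¹ * q.2) = t (q.1, k⁻¹ * (h⁻¹ * q.2))
    rw [mul_inv_rev, mul_assoc]

/-- The coordinates of a configuration, as real numbers. -/
def Cfg.co (t : Cfg Γ) (q : ℕ × Γ) : ℝ := (t q : ℝ)

lemma Cfg.co_mem (t : Cfg Γ) (q : ℕ × Γ) : 0 ≤ t.co q ∧ t.co q ≤ 1 := (t q).2

lemma Cfg.smul_co (h : Γ) (t : Cfg Γ) (m : ℕ) (g : Γ) : (h • t).co (m, g) = t.co (m, h⁻¹ * g) := rfl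

/-- PROOF: each coordinate is continuous. -/
theorem Cfg.continuous_co (q : ℕ × Γ) : Continuous fun t : Cfg Γ => t.co q := by
  have h : Continuous fun t : ℕ × Γ → Icc (0 : ℝ) 1 => t q := continuous_apply q
  exact continuous_subtype_val.comp h

instance : ContinuousConstSMul Γ (Cfg Γ) :=
  ⟨fun h => continuous_pi fun q => continuous_apply (q.1, h⁻¹ * q.2)⟩

variable {X : Type} [TopologicalSpace X] [MulAction Γ X]

/-- The box space with threshold `δ`: `(x, t)` with `t(m,g) = 1` if `f_m(g⁻¹ x) > δ` and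
`t(m,g) = 0` if `f_m(g⁻¹ x) < -δ`. -/
def box (f : ℕ → X → ℝ) (δ : ℝ) : InvSet Γ (X × Cfg Γ) where
  carrier := {p | ∀ m g, (δ < f m (g⁻¹ • p.1) → p.2.co (m, g) = 1) ∧
    (f m (g⁻¹ • p.1) < -δ → p.2.co (m, g) = 0)}
  inv h p hp m g := by
    have h1 := hp m (h⁻¹ * g)
    have h2 : (h⁻¹ * g)⁻¹ • p.1 = g⁻¹ • (h • p).1 := by
      rw [mul_inv_rev, inv_inv, mul_smul]
      rfl
    rw [h2] at h1
    exact h1

/-- At most `k` points `(m, y)`, `y` in the orbit of `x`, carry a coordinate in `(0,1)`. -/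
def RankLE (p : X × Cfg Γ) (k : ℕ) : Prop :=
  ∀ F : Finset (ℕ × Γ), (∀ q ∈ F, 0 < p.2.co q ∧ p.2.co q < 1) →
    (∀ q ∈ F, ∀ q' ∈ F, q.1 = q'.1 → q.2⁻¹ • p.1 = q'.2⁻¹ • p.1 → q = q') → F.card ≤ k

omit [TopologicalSpace X] in
/-- PROOF: for `F` as in the definition for `h • p`, the set `F' = {(m, h⁻¹ g) | (m,g) ∈ F}` is as in the
definition for `p` (`Cfg.smul_co`, `(h⁻¹ g)⁻¹ x = g⁻¹ (h x)`) and has the same cardinality. -/
theorem RankLE.smul {p : X × Cfg Γ} {k : ℕ} (hp : RankLE p k) (h : Γ) : RankLE (h • p) k := by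
  classical
  intro F hF1 hF2
  have hinj : Function.Injective (fun q : ℕ × Γ => (q.1, h⁻¹ * q.2)) := by
    rintro ⟨a, b⟩ ⟨a', b'⟩ hab
    simp only [Prod.mk.injEq, mul_right_inj] at hab
    rw [hab.1, hab.2]
  rw [← Finset.card_image_of_injective F hinj]
  have hs : ∀ q : ℕ × Γ, (h⁻¹ * q.2)⁻¹ • p.1 = q.2⁻¹ • (h • p).1 := by
    intro q
    rw [mul_inv_rev, inv_inv, mul_smul]
    rfl
  refine hp _ ?_ ?_
  · intro q hq
    obtain ⟨q', hq', rfl⟩ := Finset.mem_image.1 hq
    exact hF1 q' hq'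
  · intro q hq r hr h1 h2
    obtain ⟨q', hq', rfl⟩ := Finset.mem_image.1 hq
    obtain ⟨r', hr', rfl⟩ := Finset.mem_image.1 hr
    simp only [hs] at h2
    rw [hF2 q' hq' r' hr' h1 h2]

end PartBB1

section PartBB2

open scoped ENNReal Topology ZeroAtInfty
open Filter Topology Set

variable {Γ : Type} [Group Γ]

variable {X : Type} [TopologicalSpace X] [MulAction Γ X]

/-- The part of the box space (with `δ = 0`) of rank at most `k`. -/
def boxR (f : ℕ → X → ℝ) (k : ℕ) : InvSet Γ (X × Cfg Γ) where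
  carrier := {p | p ∈ (box f 0 : InvSet Γ (X × Cfg Γ)).carrier ∧ RankLE p k}
  inv h p hp := ⟨(box f 0).inv h p hp.1, hp.2.smul h⟩

/-- The part of rank exactly `k + 1`. -/
def boxS (f : ℕ → X → ℝ) (k : ℕ) : InvSet Γ (X × Cfg Γ) where
  carrier := {p | p ∈ (box f 0 : InvSet Γ (X × Cfg Γ)).carrier ∧ RankLE p (k + 1) ∧ ¬ RankLE p k}
  inv h p hp := ⟨(box f 0).inv h p hp.1, hp.2.1.smul h, fun h1 => hp.2.2 (by
    have h2 := h1.smul h⁻¹
    rwa [inv_smul_smul] at h2)⟩

/-- PROOF: `{δ < f m (g⁻¹ x) → t(m,g) = 1} = {f m (g⁻¹ x) ≤ δ} ∪ {t(m,g) = 1}` is closed. -/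
theorem isClosed_box [ContinuousConstSMul Γ X] {f : ℕ → X → ℝ} (hf : ∀ m, Continuous (f m))
    (δ : ℝ) : IsClosed (box f δ : InvSet Γ (X × Cfg Γ)).carrier := by
  have h : (box f δ : InvSet Γ (X × Cfg Γ)).carrier = ⋂ m, ⋂ g : Γ,
      (({p : X × Cfg Γ | f m (g⁻¹ • p.1) ≤ δ} ∪ {p : X × Cfg Γ | p.2.co (m, g) = 1}) ∩
        ({p : X × Cfg Γ | -δ ≤ f m (g⁻¹ • p.1)} ∪ {p : X × Cfg Γ | p.2.co (m, g) = 0})) := by
    ext p
    simp only [box, mem_setOf_eq, mem_iInter, mem_inter_iff, mem_union]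
    refine forall_congr' fun m => forall_congr' fun g => ?_
    rw [← not_lt, ← not_lt, ← imp_iff_not_or, ← imp_iff_not_or]
  rw [h]
  have hc1 : ∀ m (g : Γ), Continuous fun p : X × Cfg Γ => f m (g⁻¹ • p.1) := fun m g =>
    (hf m).comp (continuous_fst.const_smul g⁻¹)
  have hc2 : ∀ m (g : Γ), Continuous fun p : X × Cfg Γ => p.2.co (m, g) := fun m g =>
    (Cfg.continuous_co (m, g)).comp continuous_snd
  refine isClosed_iInter fun m => isClosed_iInter fun g => IsClosed.inter ?_ ?_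
  · exact (isClosed_le (hc1 m g) continuous_const).union (isClosed_eq (hc2 m g) continuous_const)
  · exact (isClosed_le continuous_const (hc1 m g)).union (isClosed_eq (hc2 m g) continuous_const)

/-- PROOF: the complement of `{p | RankLE p k}` is open: if `p` violates it with the finite set `F`,
`F.card > k`, then for `p'` near to `p` the same `F` works: `0 < t'(q) < 1` for `q ∈ F` and
`q.2⁻¹ x' ≠ q'.2⁻¹ x'` for the finitely many pairs with `q.2⁻¹ x ≠ q'.2⁻¹ x` (Hausdorff, continuity);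
pairs `q ≠ q'` in `F` with `q.1 = q'.1` have `q.2⁻¹ x ≠ q'.2⁻¹ x`. -/
theorem isClosed_boxR [T2Space X] [ContinuousConstSMul Γ X] {f : ℕ → X → ℝ}
    (hf : ∀ m, Continuous (f m)) (k : ℕ) : IsClosed (boxR f k : InvSet Γ (X × Cfg Γ)).carrier := by
  classical
  have h : (boxR f k : InvSet Γ (X × Cfg Γ)).carrier =
      (box f 0 : InvSet Γ (X × Cfg Γ)).carrier ∩ {p | RankLE p k} := rfl
  rw [h]
  refine (isClosed_box hf 0).inter ?_
  rw [← isOpen_compl_iff]
  have h2 : {p : X × Cfg Γ | RankLE p k}ᶜ = ⋃ F : Finset (ℕ × Γ), ⋃ _ : k < F.card,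
      ((⋂ q ∈ F, {p : X × Cfg Γ | 0 < p.2.co q ∧ p.2.co q < 1}) ∩
        ⋂ q ∈ F, ⋂ q' ∈ F, {p : X × Cfg Γ | q.1 = q'.1 → q ≠ q' → q.2⁻¹ • p.1 ≠ q'.2⁻¹ • p.1}) := by
    ext p
    simp only [RankLE, mem_compl_iff, mem_setOf_eq, mem_iUnion, mem_inter_iff, mem_iInter]
    constructor
    · intro hp
      push_neg at hp
      obtain ⟨F, h1, h2, h3⟩ := hp
      exact ⟨F, h3, h1, fun q hq q' hq' h4 h5 h6 => h5 (h2 q hq q' hq' h4 h6)⟩
    · rintro ⟨F, h3, h1, h2⟩ hp
      exact absurd (hp F h1 fun q hq q' hq' h4 h6 => by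
        by_contra h5
        exact h2 q hq q' hq' h4 h5 h6) (not_le.2 h3)
  rw [h2]
  refine isOpen_iUnion fun F => isOpen_iUnion fun _ => IsOpen.inter ?_ ?_
  · refine isOpen_biInter_finset fun q _ => ?_
    have hc : Continuous fun p : X × Cfg Γ => p.2.co q :=
      (Cfg.continuous_co q).comp continuous_snd
    exact (isOpen_lt continuous_const hc).inter (isOpen_lt hc continuous_const)
  · refine isOpen_biInter_finset fun q _ => isOpen_biInter_finset fun q' _ => ?_
    by_cases h4 : q.1 = q'.1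
    · by_cases h5 : q ≠ q'
      · have hc : IsOpen {p : X × Cfg Γ | q.2⁻¹ • p.1 ≠ q'.2⁻¹ • p.1} :=
          isOpen_ne_fun (continuous_fst.const_smul _) (continuous_fst.const_smul _)
        have he : {p : X × Cfg Γ | q.1 = q'.1 → q ≠ q' → q.2⁻¹ • p.1 ≠ q'.2⁻¹ • p.1} =
            {p : X × Cfg Γ | q.2⁻¹ • p.1 ≠ q'.2⁻¹ • p.1} := by
          ext p
          exact ⟨fun hp => hp h4 h5, fun hp _ _ => hp⟩
        rw [he]
        exact hc
      · have he : {p : X × Cfg Γ | q.1 = q'.1 → q ≠ q' → q.2⁻¹ • p.1 ≠ q'.2⁻¹ • p.1} = univ := by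
          ext p
          simp only [mem_setOf_eq, mem_univ, iff_true]
          intro _ h7
          exact absurd h7 h5
        rw [he]
        exact isOpen_univ
    · have he : {p : X × Cfg Γ | q.1 = q'.1 → q ≠ q' → q.2⁻¹ • p.1 ≠ q'.2⁻¹ • p.1} = univ := by
        ext p
        simp only [mem_setOf_eq, mem_univ, iff_true]
        intro h7
        exact absurd h7 h4
      rw [he]
      exact isOpen_univ

end PartBB2

section PartBB3

open scoped ENNReal Topology ZeroAtInfty
open Filter Topology Set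

variable {Γ : Type} [Group Γ]

variable {X : Type} [TopologicalSpace X] [MulAction Γ X]

/-- Every orbit meets the zero sets in at most `d` points `(m, y)`. -/
def GenLE (Γ : Type) {X : Type} [Group Γ] [MulAction Γ X] (f : ℕ → X → ℝ) (d : ℕ) : Prop :=
  ∀ (x : X) (F : Finset (ℕ × Γ)), (∀ q ∈ F, f q.1 (q.2⁻¹ • x) = 0) →
    (∀ q ∈ F, ∀ q' ∈ F, q.1 = q'.1 → q.2⁻¹ • x = q'.2⁻¹ • x → q = q') → F.card ≤ d

omit [TopologicalSpace X] in
/-- PROOF: if `0 < t(m,g) < 1` and `(x, t) ∈ box f 0` then `f m (g⁻¹ x)` is neither `> 0` nor `< 0`. -/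
theorem boxR_eq_box {f : ℕ → X → ℝ} {d : ℕ} (h : GenLE Γ f d) :
    (boxR f d : InvSet Γ (X × Cfg Γ)).carrier = (box f 0 : InvSet Γ (X × Cfg Γ)).carrier := by
  ext p
  constructor
  · exact fun hp => hp.1
  · intro hp
    refine ⟨hp, fun F hF1 hF2 => h p.1 F (fun q hq => ?_) hF2⟩
    obtain ⟨h0, h1⟩ := hF1 q hq
    rcases lt_trichotomy (f q.1 (q.2⁻¹ • p.1)) 0 with h2 | h2 | h2
    · have h3 : p.2.co q = 0 := (hp q.1 q.2).2 (by rw [neg_zero]; exact h2)
      exact absurd h3 h0.ne'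
    · exact h2
    · have h3 : p.2.co q = 1 := (hp q.1 q.2).1 h2
      exact absurd h3 h1.ne

omit [TopologicalSpace X] in
/-- PROOF: definitions. -/
theorem boxS_eq_diff (f : ℕ → X → ℝ) (k : ℕ) : (boxS f k : InvSet Γ (X × Cfg Γ)).carrier =
    (boxR f (k + 1) : InvSet Γ (X × Cfg Γ)).carrier \ (boxR f k : InvSet Γ (X × Cfg Γ)).carrier := by
  ext p
  constructor
  · rintro ⟨h1, h2, h3⟩
    exact ⟨⟨h1, h2⟩, fun h4 => h3 h4.2⟩
  · rintro ⟨⟨h1, h2⟩, h3⟩
    exact ⟨h1, h2, fun h4 => h3 ⟨h1, h4⟩⟩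

omit [TopologicalSpace X] in
theorem boxR_subset (f : ℕ → X → ℝ) (k : ℕ) : (boxR f k : InvSet Γ (X × Cfg Γ)).carrier ⊆
    (boxR f (k + 1) : InvSet Γ (X × Cfg Γ)).carrier :=
  fun _ hp => ⟨hp.1, fun F h1 h2 => (hp.2 F h1 h2).trans (Nat.le_succ k)⟩

end PartBB3

section PartBC1

open scoped ENNReal Topology ZeroAtInfty
open Filter Topology Set

variable {Γ X V : Type} [Group Γ] [TopologicalSpace X] [MulAction Γ X] [ContinuousConstSMul Γ X]
  [T2Space X] [LocallyCompactSpace X] [TopologicalSpace V] [MulAction Γ V]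
  [ContinuousConstSMul Γ V] [T2Space V] [LocallyCompactSpace V]

/-- The projection of a subset of `X × [0,1]^(ℕ × Γ)` to `X`, times the identity of `V`. -/
def prX (A : InvSet Γ (X × Cfg Γ)) (V : Type) : A.Pt × V → X × V :=
  Prod.map (fun p => (A.val p).1) (id : V → V)

omit [ContinuousConstSMul Γ X] [T2Space X] [LocallyCompactSpace X] [ContinuousConstSMul Γ V]
  [T2Space V] [LocallyCompactSpace V] in
/-- PROOF: the projection `X × Cfg Γ → X` is proper since `Cfg Γ` is compact, its restriction to the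
closed subset `A` is proper, and the product with the identity is proper (`IsProperMap.prodMap`). -/
theorem isProperMap_prX (A : InvSet Γ (X × Cfg Γ)) (hA : IsClosed A.carrier) :
    IsProperMap (prX A V) := by
  have h0 : IsClosedEmbedding A.val := IsClosed.isClosedEmbedding_subtypeVal hA
  have h1 : IsProperMap A.val := h0.isProperMap
  have h2 : IsProperMap (Prod.fst : X × Cfg Γ → X) := isProperMap_fst_of_compactSpace
  have h3 : IsProperMap fun p : A.Pt => (A.val p).1 := h2.comp h1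
  exact h3.prodMap isProperMap_id

omit [TopologicalSpace X] [ContinuousConstSMul Γ X] [T2Space X] [LocallyCompactSpace X]
  [TopologicalSpace V] [ContinuousConstSMul Γ V] [T2Space V] [LocallyCompactSpace V] in
theorem prX_smul (A : InvSet Γ (X × Cfg Γ)) (g : Γ) (z : A.Pt × V) :
    prX A V (g • z) = g • prX A V z := rfl

/-- The section and the homotopy. PROOF: the section is
`s(x) = (x, t)` with `t(m,g) = max 0 (min 1 ((1 + f_m(g⁻¹ x)/δ)/2))`: it is continuous, in `box f δ`
(`f_m > δ` gives `1`, `f_m < -δ` gives `0`), and equivariant: `(h • t)(m,g) = t(m, h⁻¹ g)`, and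
`(h⁻¹ g)⁻¹ x = g⁻¹ (h x)`. -/
theorem exists_section {f : ℕ → X → ℝ} (hf : ∀ m, Continuous (f m)) {δ : ℝ} (hδ : 0 < δ) :
    ∃ s : X → (box f δ : InvSet Γ (X × Cfg Γ)).Pt, Continuous s ∧
      (∀ (g : Γ) x, s (g • x) = g • s x) ∧ ∀ x, ((box f δ : InvSet Γ (X × Cfg Γ)).val (s x)).1 = x := by
  have hI : ∀ r : ℝ, max 0 (min 1 r) ∈ Icc (0 : ℝ) 1 := fun r =>
    ⟨le_max_left _ _, max_le zero_le_one (min_le_left _ _)⟩
  let t : X → Cfg Γ := fun x q => ⟨max 0 (min 1 ((1 + f q.1 (q.2⁻¹ • x) / δ) / 2)), hI _⟩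
  have ht : ∀ x m (g : Γ), (t x).co (m, g) = max 0 (min 1 ((1 + f m (g⁻¹ • x) / δ) / 2)) :=
    fun x m g => rfl
  have hb : ∀ x, (x, t x) ∈ (box f δ : InvSet Γ (X × Cfg Γ)).carrier := by
    intro x m g
    change (δ < f m (g⁻¹ • x) → (t x).co (m, g) = 1) ∧ (f m (g⁻¹ • x) < -δ → (t x).co (m, g) = 0)
    rw [ht]
    constructor
    · intro h
      have h1 : 1 ≤ (1 + f m (g⁻¹ • x) / δ) / 2 := by
        have : 1 ≤ f m (g⁻¹ • x) / δ := (one_le_div hδ).2 h.le
        linarith
      rw [min_eq_left h1]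
      exact max_eq_right zero_le_one
    · intro h
      have h1 : (1 + f m (g⁻¹ • x) / δ) / 2 ≤ 0 := by
        have : f m (g⁻¹ • x) / δ ≤ -1 := by
          rw [div_le_iff₀ hδ]
          linarith
        linarith
      exact max_eq_left ((min_le_right _ _).trans h1)
  have hct : Continuous t := by
    refine continuous_pi fun q => Continuous.subtype_mk ?_ _
    have h1 : Continuous fun x : X => f q.1 (q.2⁻¹ • x) := (hf q.1).comp (continuous_const_smul _)
    exact continuous_const.max (continuous_const.min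
      ((continuous_const.add (h1.div_const δ)).div_const 2))
  refine ⟨fun x => (box f δ : InvSet Γ (X × Cfg Γ)).pt (x, t x) (hb x), ?_, ?_, fun x => rfl⟩
  · exact Continuous.subtype_mk (continuous_id.prodMk hct) _
  · intro g x
    apply (box f δ : InvSet Γ (X × Cfg Γ)).val_injective
    rw [InvSet.val_smul, InvSet.val_pt, InvSet.val_pt]
    refine Prod.ext rfl ?_
    funext q
    apply Subtype.ext
    change (t (g • x)).co (q.1, q.2) = (t x).co (q.1, g⁻¹ * q.2)
    rw [ht, ht, mul_inv_rev, inv_inv, mul_smul]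

end PartBC1

section PartBC2

open scoped ENNReal Topology ZeroAtInfty
open Filter Topology Set

variable {Γ X V : Type} [Group Γ] [TopologicalSpace X] [MulAction Γ X] [ContinuousConstSMul Γ X]
  [T2Space X] [LocallyCompactSpace X] [TopologicalSpace V] [MulAction Γ V]
  [ContinuousConstSMul Γ V] [T2Space V] [LocallyCompactSpace V]

/-- `K₁` of the box space with a positive threshold. PROOF: with `s` from `exists_section`, let
`σ = Prod.map s id : X × V → box × V` and `π = prX`. `π ∘ σ = id`, so `pullU σ (pullU π u) = u`: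
if `pullU π u ∈ E1` then `u ∈ E1` (`σ` is proper: a closed embedding, as a section of a continuous
map into a Hausdorff space; `E1_map`). For `v` over `box × V`: the straight line homotopy
`h(((x,t),v), r) = ((x, (1-r) t + r t_s(x)), v)` (`t_s(x)` = configuration of `s x`) is in the box (the
conditions are convex in `t`), equivariant, continuous and proper
(`box × V × [0,1] → box × V` lies over `X × V`: the preimage of a compact set `K` is contained in the
preimage of the compact set `π(K)` under the proper map `box × V × [0,1] → X × V`). `h_0 = id`,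
`h_1 = σ ∘ π`. By `homotopy_invariance`, `(pullU h_0 v)⁻¹ pullU (σ ∘ π) v ∈ E1`, so with
`u = pullU σ v`: `v⁻¹ (pullU π u) ∈ E1`; take the inverse. -/
theorem isoU_box_pos {f : ℕ → X → ℝ} (hf : ∀ m, Continuous (f m)) {δ : ℝ} (hδ : 0 < δ) :
    IsoU Γ (prX (box f δ : InvSet Γ (X × Cfg Γ)) V) := by
  obtain ⟨s, hs1, hs2, hs3⟩ := exists_section (Γ := Γ) hf hδ
  have hAc : IsClosed (box f δ : InvSet Γ (X × Cfg Γ)).carrier := isClosed_box hf δ
  have hconv : ∀ p ∈ (box f δ : InvSet Γ (X × Cfg Γ)).carrier,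
      ∀ p' ∈ (box f δ : InvSet Γ (X × Cfg Γ)).carrier, p'.1 = p.1 →
      ∀ (r : Icc (0 : ℝ) 1) (t : Cfg Γ),
        (∀ q, t.co q = (1 - (r : ℝ)) * p.2.co q + r * p'.2.co q) →
        (p.1, t) ∈ (box f δ : InvSet Γ (X × Cfg Γ)).carrier := by
    intro p hp p' hp' he r t ht m g
    have h1 := hp m g
    have h2 := hp' m g
    rw [he] at h2
    constructor
    · intro h
      rw [ht, h1.1 h, h2.1 h]
      ring
    · intro h
      rw [ht, h1.2 h, h2.2 h]
      ring
  generalize hA : (box f δ : InvSet Γ (X × Cfg Γ)) = A at *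
  have hπ : IsProperMap (prX A V) := isProperMap_prX A hAc
  have hπe : ∀ (g : Γ) z, prX A V (g • z) = g • prX A V z := prX_smul A
  have hπc : Continuous (prX A V) := hπ.continuous
  obtain ⟨σ, hσdef⟩ : ∃ σ : X × V → A.Pt × V, σ = Prod.map s id := ⟨_, rfl⟩
  have hσπ : prX A V ∘ σ = id := by
    funext z
    rw [hσdef]
    exact Prod.ext (hs3 z.1) rfl
  have hσc : Continuous σ := by
    rw [hσdef]
    exact hs1.prodMap continuous_id
  have hσ : IsProperMap σ := by
    refine isProperMap_of_comp_of_t2 hσc hπc ?_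
    rw [hσπ]
    exact isProperMap_id
  have hσe : ∀ (g : Γ) z, σ (g • z) = g • σ z := by
    intro g z
    rw [hσdef]
    exact Prod.ext (hs2 g z.1) rfl
  constructor
  · intro u hu hu'
    have h1 := E1_map (φ := pull σ) (pull_norm_le σ) (pull_mem_cp hσ hσe) hu'
    have h2 : Units.map ((pull σ : Fam Γ (A.Pt × V) →+* Fam Γ (X × V)) :
        Fam Γ (A.Pt × V) →* Fam Γ (X × V)) (pullU (prX A V) u) = u := by
      apply Units.ext
      apply Fam.ext
      intro y
      change (u : Fam Γ (X × V)) ((prX A V ∘ σ) y) = (u : Fam Γ (X × V)) y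
      rw [hσπ]
      rfl
    rw [h2] at h1
    exact h1
  · intro v hv
    have hI : ∀ (r a b : Icc (0 : ℝ) 1), (1 - (r : ℝ)) * a + r * b ∈ Icc (0 : ℝ) 1 := by
      intro r a b
      have h1 := r.2.1
      have h2 := r.2.2
      have h3 := a.2.1
      have h4 := a.2.2
      have h5 := b.2.1
      have h6 := b.2.2
      constructor
      · have : 0 ≤ (1 - (r : ℝ)) * a := mul_nonneg (by linarith) h3
        have : 0 ≤ (r : ℝ) * b := mul_nonneg h1 h5
        linarith
      · have : (1 - (r : ℝ)) * a ≤ (1 - (r : ℝ)) * 1 := by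
          apply mul_le_mul_of_nonneg_left h4
          linarith
        have : (r : ℝ) * b ≤ r * 1 := mul_le_mul_of_nonneg_left h6 h1
        linarith
    obtain ⟨T, hT⟩ : ∃ T : (A.Pt × V) × Icc (0 : ℝ) 1 → Cfg Γ, T = fun z q =>
        ⟨(1 - (z.2 : ℝ)) * (A.val z.1.1).2 q + z.2 * (A.val (s (A.val z.1.1).1)).2 q,
          hI z.2 ((A.val z.1.1).2 q) ((A.val (s (A.val z.1.1).1)).2 q)⟩ := ⟨_, rfl⟩
    have hTco : ∀ z q, (T z).co q = (1 - (z.2 : ℝ)) * (A.val z.1.1).2.co q +
        z.2 * (A.val (s (A.val z.1.1).1)).2.co q := by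
      intro z q
      rw [hT]
      rfl
    have hmem : ∀ z, ((A.val z.1.1).1, T z) ∈ A.carrier := fun z =>
      hconv (A.val z.1.1) (A.val_mem _) (A.val (s (A.val z.1.1).1)) (A.val_mem _)
        (hs3 _) z.2 (T z) (hTco z)
    have hTc : Continuous T := by
      rw [hT]
      refine continuous_pi fun q => Continuous.subtype_mk ?_ _
      have h1 : Continuous fun z : (A.Pt × V) × Icc (0 : ℝ) 1 => ((z.2 : ℝ)) :=
        continuous_subtype_val.comp continuous_snd
      have h2 : Continuous fun z : (A.Pt × V) × Icc (0 : ℝ) 1 => A.val z.1.1 :=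
        A.continuous_val.comp (continuous_fst.comp continuous_fst)
      have h3 : Continuous fun z : (A.Pt × V) × Icc (0 : ℝ) 1 =>
          ((A.val z.1.1).2 q : ℝ) :=
        (Cfg.continuous_co q).comp (continuous_snd.comp h2)
      have h4 : Continuous fun z : (A.Pt × V) × Icc (0 : ℝ) 1 =>
          ((A.val (s (A.val z.1.1).1)).2 q : ℝ) :=
        (Cfg.continuous_co q).comp (continuous_snd.comp (A.continuous_val.comp
          (hs1.comp (continuous_fst.comp h2))))
      exact ((continuous_const.sub h1).mul h3).add (h1.mul h4)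
    obtain ⟨h, hh⟩ : ∃ h : (A.Pt × V) × Icc (0 : ℝ) 1 → A.Pt × V,
        h = fun z => (A.pt ((A.val z.1.1).1, T z) (hmem z), z.1.2) := ⟨_, rfl⟩
    have hhc : Continuous h := by
      rw [hh]
      refine Continuous.prodMk ?_ (continuous_snd.comp continuous_fst)
      refine Continuous.subtype_mk ?_ _
      exact (continuous_fst.comp (A.continuous_val.comp (continuous_fst.comp
        continuous_fst))).prodMk hTc
    have hhp : IsProperMap h := by
      refine isProperMap_of_comp_of_t2 hhc hπc ?_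
      have h1 : prX A V ∘ h = prX A V ∘ Prod.fst := by
        rw [hh]
        rfl
      rw [h1]
      exact hπ.comp isProperMap_fst_of_compactSpace
    have hhe : ∀ (g : Γ) x t, h (g • x, t) = g • h (x, t) := by
      intro g x t
      rw [hh]
      refine Prod.ext ?_ rfl
      apply A.val_injective
      refine Prod.ext rfl ?_
      funext q
      apply Subtype.ext
      change (T (g • x, t)).co q = (T (x, t)).co (q.1, g⁻¹ * q.2)
      rw [hTco, hTco]
      have h1 : A.val (g • x).1 = g • A.val x.1 := rfl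
      have h2 : A.val (s (A.val (g • x).1).1) = g • A.val (s (A.val x.1).1) := by
        rw [h1]
        change A.val (s (g • (A.val x.1).1)) = _
        rw [hs2]
        rfl
      rw [h2]
      rfl
    have h5 := homotopy_invariance hhp hhe hv
    have h6 : pullU (fun x => h (x, 0)) v = v := by
      have h7 : (fun x => h (x, 0)) = id := by
        funext x
        rw [hh]
        refine Prod.ext ?_ rfl
        apply A.val_injective
        refine Prod.ext rfl ?_
        funext q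
        apply Subtype.ext
        change (T (x, 0)).co q = (A.val x.1).2.co q
        rw [hTco]
        simp
      rw [h7]
      rfl
    have h8 : pullU (fun x => h (x, 1)) v = pullU (prX A V) (pullU σ v) := by
      have h7 : (fun x => h (x, 1)) = σ ∘ prX A V := by
        funext x
        rw [hh, hσdef]
        refine Prod.ext ?_ rfl
        apply A.val_injective
        refine Prod.ext (hs3 _).symm ?_
        funext q
        apply Subtype.ext
        change (T (x, 1)).co q = (A.val (s (A.val x.1).1)).2.co q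
        rw [hTco]
        simp
      rw [h7]
      rfl
    rw [h6, h8] at h5
    refine ⟨pullU σ v, GL1_map (pull_mem_cp hσ hσe) hv, ?_⟩
    have h9 := inv_mem h5
    rwa [mul_inv_rev, inv_inv] at h9

end PartBC2

section PartBC3

open scoped ENNReal Topology ZeroAtInfty
open Filter Topology Set

variable {Γ X V : Type} [Group Γ] [TopologicalSpace X] [MulAction Γ X] [ContinuousConstSMul Γ X]
  [T2Space X] [LocallyCompactSpace X] [TopologicalSpace V] [MulAction Γ V]
  [ContinuousConstSMul Γ V] [T2Space V] [LocallyCompactSpace V]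

omit [TopologicalSpace X] [ContinuousConstSMul Γ X] [T2Space X] [LocallyCompactSpace X] in
/-- PROOF: `δ < f`, `δ' ≥ δ`. -/
theorem box_mono (f : ℕ → X → ℝ) {δ δ' : ℝ} (h : δ ≤ δ') :
    (box f δ : InvSet Γ (X × Cfg Γ)).carrier ⊆ (box f δ' : InvSet Γ (X × Cfg Γ)).carrier := by
  intro p hp m g
  refine ⟨fun h1 => (hp m g).1 (lt_of_le_of_lt h h1), fun h1 => (hp m g).2 ?_⟩
  exact lt_of_lt_of_le h1 (neg_le_neg h)

omit [TopologicalSpace X] [ContinuousConstSMul Γ X] [T2Space X] [LocallyCompactSpace X] in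
/-- PROOF: if `0 < f` then `1/(n+1) < f` for some `n`. -/
theorem iInter_box (f : ℕ → X → ℝ) :
    ⋂ n : ℕ, (box f (1 / ((n : ℝ) + 1)) : InvSet Γ (X × Cfg Γ)).carrier =
      (box f 0 : InvSet Γ (X × Cfg Γ)).carrier := by
  refine Set.Subset.antisymm ?_ ?_
  · intro p hp m g
    rw [Set.mem_iInter] at hp
    refine ⟨fun h1 => ?_, fun h1 => ?_⟩
    · obtain ⟨n, hn⟩ := exists_nat_one_div_lt h1
      exact (hp n m g).1 hn
    · rw [neg_zero] at h1
      obtain ⟨n, hn⟩ := exists_nat_one_div_lt (neg_pos.mpr h1)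
      exact (hp n m g).2 (by linarith)
  · intro p hp
    rw [Set.mem_iInter]
    intro n
    exact box_mono f (by positivity) hp

end PartBC3

section PartBC4

open scoped ENNReal Topology ZeroAtInfty
open Filter Topology Set

variable {Γ X V : Type} [Group Γ] [TopologicalSpace X] [MulAction Γ X] [ContinuousConstSMul Γ X]
  [T2Space X] [LocallyCompactSpace X] [TopologicalSpace V] [MulAction Γ V]
  [ContinuousConstSMul Γ V] [T2Space V] [LocallyCompactSpace V]

/-- `K₁` OF THE BOX SPACE. PROOF: `Y = (box f 1).Pt × V`, `D n = (box f (1/(n+1))).Pt × V`,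
`C = (box f 0).Pt × V` with the inclusions into `Y` (closed embeddings, `isClosedEmbedding_incl`,
`isClosed_box`), decreasing with intersection `C` (`iInter_box`). Injectivity: let
`u ∈ GL1 (cp Γ (X × V))` with `pullU (prX (box f 0)) u ∈ E1`. `u' = pullU (prX (box f 1)) u` restricts to
it, so by `continuity_inj` its restriction to some `D n`, which is `pullU (prX (box f (1/(n+1)))) u`,
is in `E1`, so `u ∈ E1` by `isoU_box_pos`. Surjectivity: `v ∈ GL1 (cp Γ C)` is the restriction of some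
`w ∈ GL1 (cp Γ (D n))` (`continuity_surj`); by `isoU_box_pos` `(pullU prX u)⁻¹ w ∈ E1` for some `u`;
restrict to `C` (`E1_map`). (`LocallyCompactSpace` of `(box f 1).Pt × V`: `locallyCompactSpace`.) -/
theorem isoU_box (hA : PropA Γ) {f : ℕ → X → ℝ} (hf : ∀ m, Continuous (f m)) :
    IsoU Γ (prX (box f 0 : InvSet Γ (X × Cfg Γ)) V) := by
  obtain ⟨D, hD⟩ : ∃ D : ℕ → InvSet Γ (X × Cfg Γ), ∀ n, D n = box f (1 / ((n : ℝ) + 1)) :=
    ⟨_, fun _ => rfl⟩
  obtain ⟨C, hC⟩ : ∃ C : InvSet Γ (X × Cfg Γ), C = box f 0 := ⟨_, rfl⟩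
  have hpos : ∀ n : ℕ, (0 : ℝ) < 1 / ((n : ℝ) + 1) := fun n => by positivity
  have hDc : ∀ n, IsClosed (D n).carrier := fun n => by
    rw [hD]
    exact isClosed_box hf _
  have hCc : IsClosed C.carrier := by
    rw [hC]
    exact isClosed_box hf _
  have hCD : ∀ n, C.carrier ⊆ (D n).carrier := fun n => by
    rw [hC, hD]
    exact box_mono f (hpos n).le
  have hle : ∀ n m : ℕ, n ≤ m → (1 : ℝ) / ((m : ℝ) + 1) ≤ 1 / ((n : ℝ) + 1) := fun n m h => by
    have : (n : ℝ) ≤ m := by exact_mod_cast h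
    gcongr
  have hDD : ∀ n m : ℕ, n ≤ m → (D m).carrier ⊆ (D n).carrier := fun n m h => by
    rw [hD, hD]
    exact box_mono f (hle n m h)
  have hint : ⋂ n, (D n).carrier = C.carrier := by
    rw [hC, ← iInter_box f]
    exact iInter_congr fun n => by rw [hD]
  have hiso : ∀ n, IsoU Γ (prX (D n) V) := fun n => by
    rw [hD]
    exact isoU_box_pos hf (hpos n)
  rw [← hC]
  haveI : LocallyCompactSpace (D 0).Pt := (D 0).locallyCompactSpace (hDc 0).isLocallyClosed
  -- the embeddings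
  have hc : IsClosedEmbedding (Prod.map (InvSet.incl (hCD 0)) (id : V → V)) :=
    InvSet.isClosedEmbedding_incl (hCD 0) hCc
  have hd : ∀ n, IsClosedEmbedding (Prod.map (InvSet.incl (hDD 0 n (Nat.zero_le n))) (id : V → V)) :=
    fun n => InvSet.isClosedEmbedding_incl _ (hDc n)
  have hec : ∀ (g : Γ) (x : C.Pt × V), Prod.map (InvSet.incl (hCD 0)) (id : V → V) (g • x) =
      g • Prod.map (InvSet.incl (hCD 0)) (id : V → V) x := fun g x => rfl
  have hed : ∀ n (g : Γ) (x : (D n).Pt × V),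
      Prod.map (InvSet.incl (hDD 0 n (Nat.zero_le n))) (id : V → V) (g • x) =
      g • Prod.map (InvSet.incl (hDD 0 n (Nat.zero_le n))) (id : V → V) x := fun n g x => rfl
  have hrange : ∀ (A : InvSet Γ (X × Cfg Γ)) (h : A.carrier ⊆ (D 0).carrier),
      range (Prod.map (InvSet.incl h) (id : V → V)) = {y | (D 0).val y.1 ∈ A.carrier} := by
    intro A h
    ext y
    constructor
    · rintro ⟨x, rfl⟩
      exact A.val_mem x.1
    · intro hy
      exact ⟨(A.pt _ hy, y.2), Prod.ext ((D 0).val_injective rfl) rfl⟩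
  have hanti : ∀ n, range (Prod.map (InvSet.incl (hDD 0 (n + 1) (Nat.zero_le (n + 1)))) (id : V → V)) ⊆
      range (Prod.map (InvSet.incl (hDD 0 n (Nat.zero_le n))) (id : V → V)) := by
    intro n
    rw [hrange, hrange]
    intro y hy
    exact hDD n (n + 1) (Nat.le_succ n) hy
  have hinter : ⋂ n, range (Prod.map (InvSet.incl (hDD 0 n (Nat.zero_le n))) (id : V → V)) =
      range (Prod.map (InvSet.incl (hCD 0)) (id : V → V)) := by
    rw [hrange]
    ext y
    rw [mem_iInter, mem_setOf_eq, ← hint, mem_iInter]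
    exact forall_congr' fun n => by rw [hrange]; rfl
  constructor
  · intro u hu hu'
    have h0 : IsProperMap (prX (D 0) V) := isProperMap_prX _ (hDc 0)
    have hu0 : pullU (prX (D 0) V) u ∈ GL1 (cp Γ ((D 0).Pt × V)) :=
      GL1_map (pull_mem_cp h0 (prX_smul _)) hu
    have h1 : pullU (Prod.map (InvSet.incl (hCD 0)) (id : V → V)) (pullU (prX (D 0) V) u) =
        pullU (prX C V) u := rfl
    obtain ⟨n, hn⟩ := continuity_inj hA hc hec hd hed hanti hinter hu0 (by rw [h1]; exact hu')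
    exact (hiso n).1 u hu hn
  · intro v hv
    obtain ⟨n, w, hw, hwv⟩ := continuity_surj hA hc hec hd hed hanti hinter
      (fun n => Prod.map (InvSet.incl (hCD n)) (id : V → V)) (fun n x => rfl) hv
    obtain ⟨u, hu, hu'⟩ := (hiso n).2 w hw
    refine ⟨u, hu, ?_⟩
    have hcn : IsClosedEmbedding (Prod.map (InvSet.incl (hCD n)) (id : V → V)) :=
      InvSet.isClosedEmbedding_incl (hCD n) hCc
    have h2 := E1_map (φ := pull (Prod.map (InvSet.incl (hCD n)) (id : V → V))) (pull_norm_le _)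
      (pull_mem_cp hcn.isProperMap (fun g x => rfl)) hu'
    rw [map_mul, map_inv] at h2
    change (pullU (prX C V) u)⁻¹ * pullU (Prod.map (InvSet.incl (hCD n)) (id : V → V)) w ∈ _ at h2
    rwa [hwv] at h2

end PartBC4

section PartBE1

open scoped ENNReal Topology ZeroAtInfty
open Filter Topology Set

section Conj

variable {Γ X Y Z : Type} [Group Γ] [TopologicalSpace X] [MulAction Γ X]
  [TopologicalSpace Y] [MulAction Γ Y] [TopologicalSpace Z] [MulAction Γ Z]

/-- Composition. -/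
private theorem BE1_comp {p : Z → Y} {q : X → Z} (hp : IsProperMap p)
    (hep : ∀ (g : Γ) x, p (g • x) = g • p x) (hq : IsProperMap q)
    (heq : ∀ (g : Γ) x, q (g • x) = g • q x) (h1 : IsoU Γ p) (h2 : IsoU Γ q) :
    IsoU Γ (p ∘ q) := by
  have hpq : ∀ u : (Fam Γ Y)ˣ, pullU (p ∘ q) u = pullU q (pullU p u) :=
    fun u => Units.ext (Fam.ext fun _ => rfl)
  constructor
  · intro u hu hu'
    rw [hpq] at hu'
    exact h1.1 u hu (h2.1 _ (GL1_map (pull_mem_cp hp hep) hu) hu')
  · intro v hv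
    obtain ⟨w, hw, hw'⟩ := h2.2 v hv
    obtain ⟨u, hu, hu'⟩ := h1.2 w hw
    refine ⟨u, hu, ?_⟩
    have h3 : pullU q ((pullU p u)⁻¹ * w) ∈ E1 (cp Γ X) :=
      E1_map (pull_norm_le q) (pull_mem_cp hq heq) hu'
    rw [map_mul, map_inv] at h3
    rw [hpq]
    have h4 := mul_mem h3 hw'
    rwa [mul_assoc, mul_inv_cancel_left] at h4

/-- Conjugate maps. -/
private theorem BE1_conj {X' Y' : Type} [TopologicalSpace X'] [MulAction Γ X']
    [TopologicalSpace Y'] [MulAction Γ Y'] {p : X → Y} {p' : X' → Y'} (e : X' ≃ₜ X)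
    (e' : Y' ≃ₜ Y) (he : ∀ (g : Γ) x, e (g • x) = g • e x)
    (he' : ∀ (g : Γ) x, e' (g • x) = g • e' x) (h : ∀ x, p (e x) = e' (p' x))
    (hp : IsProperMap p) (hep : ∀ (g : Γ) x, p (g • x) = g • p x)
    (hp' : IsProperMap p') (hep' : ∀ (g : Γ) x, p' (g • x) = g • p' x) :
    IsoU Γ p ↔ IsoU Γ p' := by
  have he1 : ∀ (g : Γ) y, e'.symm (g • y) = g • e'.symm y := by
    intro g y
    rw [Homeomorph.symm_apply_eq, he', Homeomorph.apply_symm_apply]
  constructor
  · intro h1
    have h2 := BE1_comp hp hep e.isProperMap he h1 (IsoU.of_homeomorph e he)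
    have h3 := BE1_comp e'.symm.isProperMap he1 (hp.comp e.isProperMap)
      (fun g x => by rw [Function.comp_apply, Function.comp_apply, he, hep])
      (IsoU.of_homeomorph e'.symm he1) h2
    have h4 : (e'.symm : Y → Y') ∘ p ∘ (e : X' → X) = p' := by
      funext x
      rw [Function.comp_apply, Function.comp_apply, h, Homeomorph.symm_apply_apply]
    rwa [h4] at h3
  · intro h1
    have h2 := BE1_comp e'.isProperMap he' hp' hep' (IsoU.of_homeomorph e' he') h1
    have h4 : (e' : Y' → Y) ∘ p' = p ∘ (e : X' → X) := by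
      funext x
      rw [Function.comp_apply, Function.comp_apply, h]
    rw [h4] at h2
    exact IsoU.of_comp hp hep e.isProperMap he h2 (IsoU.of_homeomorph e he)

end Conj

variable {Γ X V : Type} [Group Γ] [TopologicalSpace X] [MulAction Γ X] [ContinuousConstSMul Γ X]
  [T2Space X] [LocallyCompactSpace X] [TopologicalSpace V] [MulAction Γ V]
  [ContinuousConstSMul Γ V] [T2Space V] [LocallyCompactSpace V]

omit [ContinuousConstSMul Γ V] [T2Space V] [LocallyCompactSpace V] [T2Space X]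
  [LocallyCompactSpace X] [ContinuousConstSMul Γ X] in
/-- Associativity. PROOF: `IsoU.of_homeomorph` for `Homeomorph.prodAssoc` and the composition rules
`IsoU.comp`, `IsoU.of_comp`: `Prod.map p (id : V × OO → V × OO)` is conjugate to
`Prod.map (Prod.map p id) id`. -/
theorem isoU_assoc {A B : Type} [TopologicalSpace A] [MulAction Γ A] [TopologicalSpace B]
    [MulAction Γ B] {p : A → B} (hp : IsProperMap p) (he : ∀ (g : Γ) x, p (g • x) = g • p x) :
    IsoU Γ (Prod.map (Prod.map p (id : V → V)) (id : OO → OO)) ↔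
      IsoU Γ (Prod.map p (id : V × OO → V × OO)) := by
  refine (BE1_conj (Homeomorph.prodAssoc A V OO) (Homeomorph.prodAssoc B V OO) (fun _ _ => rfl)
    (fun _ _ => rfl) (fun _ => rfl) (hp.prodMap isProperMap_id) ?_
    ((hp.prodMap isProperMap_id).prodMap isProperMap_id) ?_).symm
  · exact fun g x => Prod.ext (he g x.1) rfl
  · exact fun g x => Prod.ext (Prod.ext (he g x.1.1) rfl) rfl

/-- One stratum. PROOF: `K1_pull_bijective_step` with `P = (boxR f (k+1)).Pt × V`,
`C = (boxR f k).Pt × V`, `O = (boxS f k).Pt × V` (`isClosedEmbedding_incl`, `isOpenEmbedding_incl`,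
`range_incl_compl`, `boxS_eq_diff`, `isClosed_boxR`), `isoU_iff`, `isoU_assoc`.
`h1` is transported along `(S × V) × OO ≃ S × (V × OO)` by `GL1_le_E1_of_homeomorph`. -/
theorem isoU_stratum (hA : PropA Γ) {f : ℕ → X → ℝ} (hf : ∀ m, Continuous (f m)) (k : ℕ)
    (h0 : GL1 (cp Γ ((boxS f k : InvSet Γ (X × Cfg Γ)).Pt × V)) ≤
      E1 (cp Γ ((boxS f k : InvSet Γ (X × Cfg Γ)).Pt × V)))
    (h1 : GL1 (cp Γ ((boxS f k : InvSet Γ (X × Cfg Γ)).Pt × (V × OO))) ≤
      E1 (cp Γ ((boxS f k : InvSet Γ (X × Cfg Γ)).Pt × (V × OO)))) :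
    IsoU Γ (Prod.map (InvSet.incl (boxR_subset (Γ := Γ) f k)) (id : V × OO → V × OO)) := by
  have hcR : IsClosed (boxR f k : InvSet Γ (X × Cfg Γ)).carrier := isClosed_boxR hf k
  have hcR' : IsClosed (boxR f (k + 1) : InvSet Γ (X × Cfg Γ)).carrier :=
    isClosed_boxR hf (k + 1)
  have hSd := boxS_eq_diff (Γ := Γ) f k
  have hS : (boxS f k : InvSet Γ (X × Cfg Γ)).carrier ⊆
      (boxR f (k + 1) : InvSet Γ (X × Cfg Γ)).carrier := by
    rw [hSd]
    exact Set.sdiff_subset
  have : LocallyCompactSpace (boxR f (k + 1) : InvSet Γ (X × Cfg Γ)).Pt :=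
    InvSet.locallyCompactSpace _ hcR'.isLocallyClosed
  have hincl : IsProperMap (InvSet.incl (boxR_subset (Γ := Γ) f k)) := by
    have h2 : IsClosedEmbedding ((boxR f (k + 1) : InvSet Γ (X × Cfg Γ)).val ∘
        InvSet.incl (boxR_subset (Γ := Γ) f k)) := hcR.isClosedEmbedding_subtypeVal
    have h3 : IsClosedEmbedding (boxR f (k + 1) : InvSet Γ (X × Cfg Γ)).val :=
      hcR'.isClosedEmbedding_subtypeVal
    exact (h3.of_comp_iff.1 h2).isProperMap
  have heincl : ∀ (g : Γ) x, InvSet.incl (boxR_subset (Γ := Γ) f k) (g • x) =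
      g • InvSet.incl (boxR_subset (Γ := Γ) f k) x := fun _ _ => rfl
  have hc := InvSet.isClosedEmbedding_incl (boxR_subset (Γ := Γ) f k) hcR (V := V)
  have ho := InvSet.isOpenEmbedding_incl hS hSd hcR (V := V)
  have hco := InvSet.range_incl_compl hS (boxR_subset (Γ := Γ) f k) hSd (V := V)
  have h1' : GL1 (cp Γ (((boxS f k : InvSet Γ (X × Cfg Γ)).Pt × V) × OO)) ≤
      E1 (cp Γ (((boxS f k : InvSet Γ (X × Cfg Γ)).Pt × V) × OO)) :=
    GL1_le_E1_of_homeomorph
      (Homeomorph.prodAssoc (boxS f k : InvSet Γ (X × Cfg Γ)).Pt V OO).symm (fun _ _ => rfl) h1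
  rw [← isoU_assoc hincl heincl]
  have hp : IsProperMap (Prod.map (Prod.map (InvSet.incl (boxR_subset (Γ := Γ) f k))
      (id : V → V)) (id : OO → OO)) := (hincl.prodMap isProperMap_id).prodMap isProperMap_id
  rw [isoU_iff hp (fun _ _ => rfl)]
  exact K1_pull_bijective_step hA hc (fun _ _ => rfl) ho (fun _ _ => rfl) hco h0 h1' hp
    (fun _ _ => rfl)

end PartBE1

section PartBE2

open scoped ENNReal Topology ZeroAtInfty
open Filter Topology Set

section Conj

variable {Γ X Y Z : Type} [Group Γ] [TopologicalSpace X] [MulAction Γ X]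
  [TopologicalSpace Y] [MulAction Γ Y] [TopologicalSpace Z] [MulAction Γ Z]

/-- Composition. -/
private theorem BE2_comp {p : Z → Y} {q : X → Z} (hp : IsProperMap p)
    (hep : ∀ (g : Γ) x, p (g • x) = g • p x) (hq : IsProperMap q)
    (heq : ∀ (g : Γ) x, q (g • x) = g • q x) (h1 : IsoU Γ p) (h2 : IsoU Γ q) :
    IsoU Γ (p ∘ q) := by
  have hpq : ∀ u : (Fam Γ Y)ˣ, pullU (p ∘ q) u = pullU q (pullU p u) :=
    fun u => Units.ext (Fam.ext fun _ => rfl)
  constructor
  · intro u hu hu'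
    rw [hpq] at hu'
    exact h1.1 u hu (h2.1 _ (GL1_map (pull_mem_cp hp hep) hu) hu')
  · intro v hv
    obtain ⟨w, hw, hw'⟩ := h2.2 v hv
    obtain ⟨u, hu, hu'⟩ := h1.2 w hw
    refine ⟨u, hu, ?_⟩
    have h3 : pullU q ((pullU p u)⁻¹ * w) ∈ E1 (cp Γ X) :=
      E1_map (pull_norm_le q) (pull_mem_cp hq heq) hu'
    rw [map_mul, map_inv] at h3
    rw [hpq]
    have h4 := mul_mem h3 hw'
    rwa [mul_assoc, mul_inv_cancel_left] at h4

end Conj

/-- Equality of invariant sets. -/
private theorem BE2_ext {Γ P : Type} [Group Γ] [MulAction Γ P] {A B : InvSet Γ P}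
    (h : A.carrier = B.carrier) : A = B := by
  obtain ⟨c, i⟩ := A
  obtain ⟨c', i'⟩ := B
  obtain rfl : c = c' := h
  rfl

variable {Γ X V : Type} [Group Γ] [TopologicalSpace X] [MulAction Γ X] [ContinuousConstSMul Γ X]
  [T2Space X] [LocallyCompactSpace X] [TopologicalSpace V] [MulAction Γ V]
  [ContinuousConstSMul Γ V] [T2Space V] [LocallyCompactSpace V]

/-- ALL STRATA. PROOF: `isoU_box` for `V × OO` and `boxR_eq_box` (the sets are equal, the identity map
is a homeomorphism) give `IsoU (prX (boxR f d) (V × OO))`; `prX (boxR f k) = prX (boxR f (k+1)) ∘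
(incl × id)`, so by `isoU_stratum` and `IsoU.comp` downward induction gives `IsoU (prX (boxR f 0))`. -/
theorem isoU_boxR_zero (hA : PropA Γ) {f : ℕ → X → ℝ} (hf : ∀ m, Continuous (f m)) {d : ℕ}
    (hd : GenLE Γ f d)
    (h0 : ∀ k, GL1 (cp Γ ((boxS f k : InvSet Γ (X × Cfg Γ)).Pt × V)) ≤
      E1 (cp Γ ((boxS f k : InvSet Γ (X × Cfg Γ)).Pt × V)))
    (h1 : ∀ k, GL1 (cp Γ ((boxS f k : InvSet Γ (X × Cfg Γ)).Pt × (V × OO))) ≤
      E1 (cp Γ ((boxS f k : InvSet Γ (X × Cfg Γ)).Pt × (V × OO)))) :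
    IsoU Γ (prX (boxR f 0 : InvSet Γ (X × Cfg Γ)) (V × OO)) := by
  have hstep : ∀ k, IsoU Γ (prX (boxR f k : InvSet Γ (X × Cfg Γ)) (V × OO)) →
      IsoU Γ (prX (boxR f 0 : InvSet Γ (X × Cfg Γ)) (V × OO)) := by
    intro k
    induction k with
    | zero => exact fun h => h
    | succ k ih =>
      intro h
      refine ih ?_
      have h2 := BE2_comp (isProperMap_prX _ (isClosed_boxR hf (k + 1)))
        (fun _ _ => rfl)
        (InvSet.isClosedEmbedding_incl (boxR_subset (Γ := Γ) f k) (isClosed_boxR hf k)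
          (V := V × OO)).isProperMap
        (fun _ _ => rfl) h (isoU_stratum hA hf k (h0 k) (h1 k))
      exact h2
  refine hstep d ?_
  have hEq : (boxR f d : InvSet Γ (X × Cfg Γ)) = box f 0 := BE2_ext (boxR_eq_box hd)
  rw [hEq]
  exact isoU_box hA hf

end PartBE2

section PartBE3

open scoped ENNReal Topology ZeroAtInfty
open Filter Topology Set

variable {Γ X V : Type} [Group Γ] [TopologicalSpace X] [MulAction Γ X] [ContinuousConstSMul Γ X]
  [T2Space X] [LocallyCompactSpace X] [TopologicalSpace V] [MulAction Γ V]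
  [ContinuousConstSMul Γ V] [T2Space V] [LocallyCompactSpace V]

/-! ### The space of rank `0` -/

/-- The functions separate the points, with signs. -/
def SepF {X : Type} (f : ℕ → X → ℝ) : Prop := ∀ x y : X, x ≠ y → ∃ m, 0 < f m x ∧ f m y < 0

omit [T2Space X] [LocallyCompactSpace X] [ContinuousConstSMul Γ X] [TopologicalSpace X] in
/-- PROOF: `RankLE (x,t) 0` means that no coordinate is in `(0,1)` (take `F = {q}`). -/
theorem co_of_mem_boxR_zero {f : ℕ → X → ℝ} {p : X × Cfg Γ}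
    (hp : p ∈ (boxR f 0 : InvSet Γ (X × Cfg Γ)).carrier) (q : ℕ × Γ) :
    p.2.co q = 0 ∨ p.2.co q = 1 := by
  by_contra hne
  rw [not_or] at hne
  have h := p.2.co_mem q
  have h1 := hp.2 {q} (by
    intro q' hq'
    rw [Finset.mem_singleton] at hq'
    subst hq'
    exact ⟨lt_of_le_of_ne h.1 (Ne.symm hne.1), lt_of_le_of_ne h.2 hne.2⟩) (by
    intro a ha b hb _ _
    rw [Finset.mem_singleton] at ha hb
    rw [ha, hb])
  simp at h1

omit [T2Space X] [LocallyCompactSpace X] [ContinuousConstSMul Γ X] in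
/-- PROOF: `isTotallyDisconnected`: let `S` be a preconnected subset of `(boxR f 0).Pt`. Each coordinate
`t(q)` is continuous with values in `{0,1}` on it, so constant on `S`. If `(x,t), (x',t') ∈ S` and
`x ≠ x'` then by `SepF` there is `m` with `0 < f m x`, `f m x' < 0`, so `t(m,1) = 1`, `t'(m,1) = 0`, a
contradiction. So `x = x'`, `t = t'`. -/
theorem totallyDisconnected_boxR_zero {f : ℕ → X → ℝ} (hs : SepF f) :
    TotallyDisconnectedSpace (boxR f 0 : InvSet Γ (X × Cfg Γ)).Pt := by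
  have hVc : Continuous (boxR f 0 : InvSet Γ (X × Cfg Γ)).val :=
    (boxR f 0 : InvSet Γ (X × Cfg Γ)).continuous_val
  have hco : ∀ q : ℕ × Γ, Continuous fun p' => ((boxR f 0 : InvSet Γ (X × Cfg Γ)).val p').2.co q :=
    fun q => (Cfg.continuous_co q).comp (continuous_snd.comp hVc)
  refine ⟨fun S _ hS a ha b hb => ?_⟩
  have hconst : ∀ q : ℕ × Γ, ((boxR f 0 : InvSet Γ (X × Cfg Γ)).val a).2.co q =
      ((boxR f 0 : InvSet Γ (X × Cfg Γ)).val b).2.co q := by
    intro q
    have hpc := hS.image _ (hco q).continuousOn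
    have hsub : (fun p' => ((boxR f 0 : InvSet Γ (X × Cfg Γ)).val p').2.co q) '' S ⊆
        ({0, 1} : Set ℝ) := by
      rintro _ ⟨p', _, rfl⟩
      exact co_of_mem_boxR_zero ((boxR f 0 : InvSet Γ (X × Cfg Γ)).val_mem p') q
    have hss := (Set.toFinite ({0, 1} : Set ℝ)).countable.isTotallyDisconnected _ hsub hpc
    exact hss (mem_image_of_mem _ ha) (mem_image_of_mem _ hb)
  apply (boxR f 0 : InvSet Γ (X × Cfg Γ)).val_injective
  refine Prod.ext ?_ ?_
  · by_contra hne
    obtain ⟨m, h1, h2⟩ := hs _ _ hne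
    have e1 := (((boxR f 0 : InvSet Γ (X × Cfg Γ)).val_mem a).1 m 1).1 (by
      rw [inv_one, one_smul]
      exact h1)
    have e2 := (((boxR f 0 : InvSet Γ (X × Cfg Γ)).val_mem b).1 m 1).2 (by
      rw [inv_one, one_smul, neg_zero]
      exact h2)
    have e3 := hconst (m, 1)
    rw [e1, e2] at e3
    exact one_ne_zero e3
  · funext q
    exact Subtype.ext (hconst q)

omit [T2Space X] [LocallyCompactSpace X] [ContinuousConstSMul Γ X] [TopologicalSpace X] in
/-- PROOF: for `x` take `t(m,g) = 1` if `0 ≤ f m (g⁻¹ x)` and `0` otherwise. -/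
theorem surjective_boxR_zero (f : ℕ → X → ℝ) :
    Function.Surjective fun p : (boxR f 0 : InvSet Γ (X × Cfg Γ)).Pt =>
      ((boxR f 0 : InvSet Γ (X × Cfg Γ)).val p).1 := by
  classical
  intro x
  let t : Cfg Γ := fun q => if 0 ≤ f q.1 (q.2⁻¹ • x) then 1 else 0
  have ht : ∀ q : ℕ × Γ, t.co q = if 0 ≤ f q.1 (q.2⁻¹ • x) then 1 else 0 := by
    intro q
    change ((if 0 ≤ f q.1 (q.2⁻¹ • x) then 1 else 0 : Icc (0 : ℝ) 1) : ℝ) = _
    split_ifs <;> rfl
  have hmem : ((x, t) : X × Cfg Γ) ∈ (boxR f 0 : InvSet Γ (X × Cfg Γ)).carrier := by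
    refine ⟨fun m g => ⟨fun h => ?_, fun h => ?_⟩, fun F hF _ => ?_⟩
    · change t.co (m, g) = 1
      rw [ht, if_pos h.le]
    · change t.co (m, g) = 0
      rw [neg_zero] at h
      rw [ht, if_neg (not_le.2 h)]
    · rw [Nat.le_zero, Finset.card_eq_zero]
      refine Finset.eq_empty_of_forall_notMem fun q hq => ?_
      have h1 := hF q hq
      change 0 < t.co q ∧ t.co q < 1 at h1
      rw [ht] at h1
      split_ifs at h1
      · exact lt_irrefl _ h1.2
      · exact lt_irrefl _ h1.1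
  exact ⟨(boxR f 0 : InvSet Γ (X × Cfg Γ)).pt (x, t) hmem, rfl⟩

end PartBE3

section PartBE4

open scoped ENNReal Topology ZeroAtInfty
open Filter Topology Set

variable {Γ X V : Type} [Group Γ] [TopologicalSpace X] [MulAction Γ X] [ContinuousConstSMul Γ X]
  [T2Space X] [LocallyCompactSpace X] [TopologicalSpace V] [MulAction Γ V]
  [ContinuousConstSMul Γ V] [T2Space V] [LocallyCompactSpace V]

omit [T2Space X] [LocallyCompactSpace X] [ContinuousConstSMul Γ X] [TopologicalSpace X] in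
/-- PROOF: the set `F_x = {(m,g) | f m (g⁻¹ x) = 0}` is finite with at most `d` elements (`GenLE`; if
`g⁻¹ x = g'⁻¹ x` then `g = g'` since the stabilizer is trivial; every finite subset has at most `d`
elements). A point `(x,t)` of the fibre is determined by the restriction of `t` to `F_x`, with values in
`{0,1}` (`co_of_mem_boxR_zero`), so there are at most `2^d` of them. -/
theorem encard_fibre_le {f : ℕ → X → ℝ} {d : ℕ} (hd : GenLE Γ f d)
    (hx : ∀ x : X, MulAction.stabilizer Γ x = ⊥) (x : X) :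
    {p : (boxR f 0 : InvSet Γ (X × Cfg Γ)).Pt |
      ((boxR f 0 : InvSet Γ (X × Cfg Γ)).val p).1 = x}.encard ≤ 2 ^ d := by
  classical
  -- the set `F_x`
  have hfin : ∀ F : Finset (ℕ × Γ), (∀ q ∈ F, f q.1 (q.2⁻¹ • x) = 0) → F.card ≤ d := by
    intro F hF
    refine hd x F hF fun q _ q' _ h1 h2 => ?_
    have h3 : q'.2 * q.2⁻¹ ∈ MulAction.stabilizer Γ x := by
      rw [MulAction.mem_stabilizer_iff, mul_smul, h2, smul_inv_smul]
    rw [hx x, Subgroup.mem_bot, mul_inv_eq_one] at h3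
    exact Prod.ext h1 h3.symm
  have hZf : {q : ℕ × Γ | f q.1 (q.2⁻¹ • x) = 0}.Finite := by
    by_contra hinf
    obtain ⟨t, ht, htc⟩ := Set.Infinite.exists_subset_card_eq (s := {q : ℕ × Γ | f q.1 (q.2⁻¹ • x) = 0})
      hinf (d + 1)
    have := hfin t fun q hq => ht hq
    omega
  set Z : Finset (ℕ × Γ) := hZf.toFinset with hZ
  have hZc : Z.card ≤ d := hfin Z fun q hq => by
    have := hZf.mem_toFinset.1 hq
    exact this
  -- the map of the fibre to the subsets of `F_x`
  have hinj : Set.InjOn (fun p : (boxR f 0 : InvSet Γ (X × Cfg Γ)).Pt =>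
      Z.filter fun q => ((boxR f 0 : InvSet Γ (X × Cfg Γ)).val p).2.co q = 1)
      {p | ((boxR f 0 : InvSet Γ (X × Cfg Γ)).val p).1 = x} := by
    intro a ha b hb hab
    simp only [Set.mem_setOf_eq] at ha hb
    apply (boxR f 0 : InvSet Γ (X × Cfg Γ)).val_injective
    refine Prod.ext (ha.trans hb.symm) ?_
    funext q
    apply Subtype.ext
    change ((boxR f 0 : InvSet Γ (X × Cfg Γ)).val a).2.co q =
      ((boxR f 0 : InvSet Γ (X × Cfg Γ)).val b).2.co q
    have ma := ((boxR f 0 : InvSet Γ (X × Cfg Γ)).val_mem a).1 q.1 q.2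
    have mb := ((boxR f 0 : InvSet Γ (X × Cfg Γ)).val_mem b).1 q.1 q.2
    rw [ha] at ma
    rw [hb] at mb
    rw [neg_zero] at ma mb
    rcases lt_trichotomy (f q.1 (q.2⁻¹ • x)) 0 with h | h | h
    · exact (ma.2 h).trans (mb.2 h).symm
    · have hq : q ∈ Z := hZf.mem_toFinset.2 h
      have hiff : ((boxR f 0 : InvSet Γ (X × Cfg Γ)).val a).2.co q = 1 ↔
          ((boxR f 0 : InvSet Γ (X × Cfg Γ)).val b).2.co q = 1 := by
        have h1 := Finset.ext_iff.1 hab q
        simpa only [Finset.mem_filter, hq, true_and] using h1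
      rcases co_of_mem_boxR_zero ((boxR f 0 : InvSet Γ (X × Cfg Γ)).val_mem a) q with h1 | h1
      · rcases co_of_mem_boxR_zero ((boxR f 0 : InvSet Γ (X × Cfg Γ)).val_mem b) q with h2 | h2
        · rw [h1, h2]
        · rw [hiff.2 h2, h2]
      · rw [h1, hiff.1 h1]
    · exact (ma.1 h).trans (mb.1 h).symm
  have hmaps : Set.MapsTo (fun p : (boxR f 0 : InvSet Γ (X × Cfg Γ)).Pt =>
      Z.filter fun q => ((boxR f 0 : InvSet Γ (X × Cfg Γ)).val p).2.co q = 1)
      {p | ((boxR f 0 : InvSet Γ (X × Cfg Γ)).val p).1 = x} (Z.powerset : Set (Finset (ℕ × Γ))) := by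
    intro p _
    simp only [Finset.coe_powerset, Set.mem_preimage, Set.mem_powerset_iff, Finset.coe_subset]
    exact Finset.filter_subset _ _
  have h1 := Set.encard_le_encard_of_injOn hmaps hinj
  refine h1.trans ?_
  rw [Set.encard_coe_eq_coe_finsetCard, Finset.card_powerset]
  have h2 : (2 : ℕ) ^ Z.card ≤ 2 ^ d := Nat.pow_le_pow_right (by norm_num) hZc
  exact_mod_cast h2

end PartBE4

end Pool.Agent.Lib.MP_aa9b81_an.Cut
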