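import Mathlib

/-!
# Definitions: reduced crossed products, their K-theory, open cones, amenability, dimension

`Γ` is a discrete group. For a `Γ`-space `Y` the algebra `cp Γ Y` is
`(C₀(Y) ⋊_r Γ) ⊗ 𝒦`, given by its faithful representation on the family of Hilbert spaces
`ℓ²(Γ × ℕ)`, one for each point of `Y`.
-/

open scoped ENNReal Topology ZeroAtInfty
open MulAction

noncomputable section

namespace Pool.Agent.Lib.MP_aa9b81_an.Cut

/-- The Hilbert space `ℓ²(Γ × ℕ)`. -/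
abbrev Hil (Γ : Type) : Type := lp (fun _ : Γ × ℕ => ℂ) 2

/-- The bounded operators on `ℓ²(Γ × ℕ)`. -/
abbrev Op (Γ : Type) : Type := Hil Γ →L[ℂ] Hil Γ

instance (Γ : Type) [Group Γ] : Nontrivial (Hil Γ) :=
  ⟨by
    classical
    refine ⟨lp.single 2 (1, 0) (1 : ℂ), 0, fun h => ?_⟩
    have h1 := congrArg (fun ξ : Hil Γ => (ξ : Γ × ℕ → ℂ) (1, 0)) h
    simp at h1⟩

/-- The Banach algebra of bounded families of operators on `ℓ²(Γ × ℕ)`, indexed by `Y`, with the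
supremum norm. -/
def Fam (Γ Y : Type) : Type := lp (fun _ : Y => Op Γ) ∞

section Fam

variable (Γ Y : Type) [Group Γ]

instance : NormedRing (Fam Γ Y) := inferInstanceAs (NormedRing (lp (fun _ : Y => Op Γ) ∞))

instance : NormedAlgebra ℂ (Fam Γ Y) :=
  inferInstanceAs (NormedAlgebra ℂ (lp (fun _ : Y => Op Γ) ∞))

instance : CompleteSpace (Fam Γ Y) := inferInstanceAs (CompleteSpace (lp (fun _ : Y => Op Γ) ∞))

variable {Γ Y} in
/-- The family of operators underlying an element of `Fam Γ Y`. -/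
def Fam.fn (a : Fam Γ Y) : Y → Op Γ :=
  (Subtype.val (p := fun f : ∀ _ : Y, Op Γ => Memℓp f ∞) a : ∀ _ : Y, Op Γ)

instance : CoeFun (Fam Γ Y) (fun _ => Y → Op Γ) := ⟨Fam.fn⟩

end Fam

namespace Fam

variable {Γ Y : Type} [Group Γ]

/-- The bounded family given by a function. -/
def mk (a : Y → Op Γ) (C : ℝ) (h : ∀ y, ‖a y‖ ≤ C) : Fam Γ Y :=
  ⟨a, memℓp_infty ⟨C, by rintro _ ⟨y, rfl⟩; exact h y⟩⟩

omit [Group Γ] in
@[simp] lemma mk_apply (a : Y → Op Γ) (C : ℝ) (h : ∀ y, ‖a y‖ ≤ C) (y : Y) :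
    (mk a C h) y = a y := rfl

omit [Group Γ] in
@[ext] lemma ext {a b : Fam Γ Y} (h : ∀ y, a y = b y) : a = b :=
  Subtype.ext (funext h)

@[simp] lemma add_apply (a b : Fam Γ Y) (y : Y) : (a + b) y = a y + b y := rfl

@[simp] lemma sub_apply (a b : Fam Γ Y) (y : Y) : (a - b) y = a y - b y := rfl

@[simp] lemma neg_apply (a : Fam Γ Y) (y : Y) : (-a) y = -a y := rfl

@[simp] lemma mul_apply (a b : Fam Γ Y) (y : Y) : (a * b) y = a y * b y := rfl

@[simp] lemma zero_apply (y : Y) : (0 : Fam Γ Y) y = 0 := rfl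

@[simp] lemma one_apply (y : Y) : (1 : Fam Γ Y) y = 1 := rfl

@[simp] lemma smul_apply (c : ℂ) (a : Fam Γ Y) (y : Y) : (c • a) y = c • a y := rfl

lemma norm_apply_le (a : Fam Γ Y) (y : Y) : ‖a y‖ ≤ ‖a‖ :=
  lp.norm_apply_le_norm (E := fun _ : Y => Op Γ) (by simp) a y

lemma norm_le_iff {a : Fam Γ Y} {C : ℝ} (hC : 0 ≤ C) : ‖a‖ ≤ C ↔ ∀ y, ‖a y‖ ≤ C :=
  ⟨fun h y => (norm_apply_le a y).trans h, fun h =>
    lp.norm_le_of_forall_le (E := fun _ : Y => Op Γ) hC h⟩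

end Fam

section Gen

variable {Γ : Type} [Group Γ]

/-- The function `(s, k) ↦ φ(s) ξ(g⁻¹ s, j)` for `k = i`, and `0` for `k ≠ i`. -/
def wFun (φ : Γ → ℂ) (g : Γ) (i j : ℕ) (ξ : Γ × ℕ → ℂ) : Γ × ℕ → ℂ :=
  fun p => if p.2 = i then φ p.1 * ξ (g⁻¹ * p.1, j) else 0

lemma wFun_add (φ : Γ → ℂ) (g : Γ) (i j : ℕ) (ξ η : Γ × ℕ → ℂ) :
    wFun φ g i j (ξ + η) = wFun φ g i j ξ + wFun φ g i j η := by
  funext p
  simp only [wFun, Pi.add_apply]
  split_ifs <;> ring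

lemma wFun_smul (φ : Γ → ℂ) (g : Γ) (i j : ℕ) (c : ℂ) (ξ : Γ × ℕ → ℂ) :
    wFun φ g i j (c • ξ) = c • wFun φ g i j ξ := by
  funext p
  simp only [wFun, Pi.smul_apply, smul_eq_mul]
  split_ifs <;> ring

omit [Group Γ] in
lemma summable_hil (ξ : Hil Γ) : Summable fun p => ‖(ξ : Γ × ℕ → ℂ) p‖ ^ 2 := by
  have h := (lp.memℓp ξ).summable (by simp)
  simpa using h

lemma wFun_norm_sq_le {φ : Γ → ℂ} {C : ℝ} (hC : ∀ s, ‖φ s‖ ≤ C) (g : Γ) (i j : ℕ)
    (ξ : Hil Γ) : Summable (fun p => ‖wFun φ g i j ξ p‖ ^ 2) ∧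
      ∑' p, ‖wFun φ g i j ξ p‖ ^ 2 ≤ C ^ 2 * ∑' p, ‖(ξ : Γ × ℕ → ℂ) p‖ ^ 2 := by
  have hξ := summable_hil ξ
  have he : Function.Injective (fun s : Γ => (s, i)) := fun a b h => (Prod.ext_iff.1 h).1
  have he' : Function.Injective (fun s : Γ => (g⁻¹ * s, j)) := fun a b h =>
    mul_left_cancel (Prod.ext_iff.1 h).1
  have hz : ∀ p ∉ Set.range (fun s : Γ => (s, i)), ‖wFun φ g i j ξ p‖ ^ 2 = 0 := by
    rintro ⟨s, k⟩ hp
    have hk : k ≠ i := by
      rintro rfl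
      exact hp ⟨s, rfl⟩
    simp [wFun, hk]
  have hle : ∀ s : Γ, ‖wFun φ g i j ξ (s, i)‖ ^ 2 ≤
      C ^ 2 * ‖(ξ : Γ × ℕ → ℂ) (g⁻¹ * s, j)‖ ^ 2 := by
    intro s
    simp only [wFun, if_true, norm_mul, mul_pow]
    gcongr
    exact hC s
  have hs' : Summable fun s : Γ => ‖(ξ : Γ × ℕ → ℂ) (g⁻¹ * s, j)‖ ^ 2 :=
    hξ.comp_injective he'
  have hs : Summable fun s : Γ => ‖wFun φ g i j ξ (s, i)‖ ^ 2 :=
    Summable.of_nonneg_of_le (fun _ => by positivity) hle (hs'.mul_left _)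
  constructor
  · exact (he.summable_iff hz).1 hs
  · rw [← he.tsum_eq (f := fun p => ‖wFun φ g i j ξ p‖ ^ 2)
      (by
        intro p hp
        by_contra h
        exact hp (hz p h))]
    calc ∑' s : Γ, ‖wFun φ g i j ξ (s, i)‖ ^ 2
        ≤ ∑' s : Γ, C ^ 2 * ‖(ξ : Γ × ℕ → ℂ) (g⁻¹ * s, j)‖ ^ 2 :=
          hs.tsum_le_tsum hle (hs'.mul_left _)
      _ = C ^ 2 * ∑' s : Γ, ‖(ξ : Γ × ℕ → ℂ) (g⁻¹ * s, j)‖ ^ 2 := tsum_mul_left
      _ ≤ C ^ 2 * ∑' p, ‖(ξ : Γ × ℕ → ℂ) p‖ ^ 2 := by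
          gcongr
          exact tsum_comp_le_tsum_of_inj hξ (fun _ => by positivity) he'

lemma memℓp_wFun {φ : Γ → ℂ} {C : ℝ} (hC : ∀ s, ‖φ s‖ ≤ C) (g : Γ) (i j : ℕ) (ξ : Hil Γ) :
    Memℓp (wFun φ g i j ξ) 2 := by
  refine memℓp_gen ?_
  simpa using (wFun_norm_sq_le hC g i j ξ).1

lemma norm_wFun_le {φ : Γ → ℂ} {C : ℝ} (hC : ∀ s, ‖φ s‖ ≤ C) (g : Γ) (i j : ℕ) (ξ : Hil Γ) :
    ‖(⟨wFun φ g i j ξ, memℓp_wFun hC g i j ξ⟩ : Hil Γ)‖ ≤ C * ‖ξ‖ := by
  have hC0 : 0 ≤ C := (norm_nonneg _).trans (hC 1)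
  have h := (wFun_norm_sq_le hC g i j ξ).2
  have h2 : (0 : ℝ) < (2 : ℝ≥0∞).toReal := by simp
  rw [lp.norm_eq_tsum_rpow h2, lp.norm_eq_tsum_rpow h2]
  have h3 : ∀ η : Γ × ℕ → ℂ, (∑' p, ‖η p‖ ^ (2 : ℝ≥0∞).toReal) = ∑' p, ‖η p‖ ^ 2 := by
    intro η
    simp
  rw [h3 (ξ : Γ × ℕ → ℂ)]
  change (∑' p, ‖wFun φ g i j ξ p‖ ^ (2 : ℝ≥0∞).toReal) ^ _ ≤ _
  rw [h3]
  have h4 : C = (C ^ 2) ^ (1 / (2 : ℝ≥0∞).toReal) := by
    rw [show (2 : ℝ≥0∞).toReal = (2 : ℝ) by simp, ← Real.sqrt_eq_rpow, Real.sqrt_sq hC0]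
  have h5 : (0 : ℝ) ≤ ∑' p, ‖(ξ : Γ × ℕ → ℂ) p‖ ^ 2 := tsum_nonneg fun _ => by positivity
  conv_rhs => rw [h4]
  rw [← Real.mul_rpow (by positivity) h5]
  exact Real.rpow_le_rpow (tsum_nonneg fun _ => by positivity) h (by simp)

/-- The operator `ξ ↦ ((s, k) ↦ φ(s) ξ(g⁻¹ s, j)` for `k = i`, and `0` for `k ≠ i`) on
`ℓ²(Γ × ℕ)`, for a function `φ` bounded by `C`. -/
def wOp (φ : Γ → ℂ) (C : ℝ) (hC : ∀ s, ‖φ s‖ ≤ C) (g : Γ) (i j : ℕ) : Op Γ :=
  LinearMap.mkContinuous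
    { toFun := fun ξ => ⟨wFun φ g i j ξ, memℓp_wFun hC g i j ξ⟩
      map_add' := fun ξ η => by
        ext1
        exact wFun_add φ g i j ξ η
      map_smul' := fun c ξ => by
        ext1
        exact wFun_smul φ g i j c ξ } C (norm_wFun_le hC g i j)

lemma norm_wOp_le (φ : Γ → ℂ) (C : ℝ) (hC : ∀ s, ‖φ s‖ ≤ C) (g : Γ) (i j : ℕ) :
    ‖wOp φ C hC g i j‖ ≤ C :=
  LinearMap.mkContinuous_norm_le _ ((norm_nonneg _).trans (hC 1)) _

end Gen

section Crossed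

variable (Γ Y : Type) [Group Γ] [TopologicalSpace Y] [MulAction Γ Y]

variable {Γ Y} in
/-- The element `f u_g ⊗ e_{ij}` of the crossed product (`f ∈ C₀(Y)`, `g ∈ Γ`, `e_{ij}` a matrix
unit): the family of the operators `(T_y ξ)(s, k) = f(s y) ξ(g⁻¹ s, j)` for `k = i`, and `0` for
`k ≠ i`, on `ℓ²(Γ × ℕ)`. -/
def gen (f : C₀(Y, ℂ)) (g : Γ) (i j : ℕ) : Fam Γ Y :=
  Fam.mk (fun y => wOp (fun s : Γ => f (s • y)) ‖f‖
    (fun s => f.toBCF.norm_coe_le_norm (s • y)) g i j) ‖f‖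
    (fun _ => norm_wOp_le _ _ _ _ _ _)

/-- The stabilised reduced crossed product `(C₀(Y) ⋊_r Γ) ⊗ 𝒦`: the closed algebra generated by
the elements `f u_g ⊗ e_{ij}`. -/
def cp : NonUnitalSubalgebra ℂ (Fam Γ Y) :=
  (NonUnitalAlgebra.adjoin ℂ {a | ∃ f g i j, a = gen f g i j}).topologicalClosure

end Crossed

/-! ### `K₁` -/

section K

variable {B B' : Type} [NormedRing B] [NormedAlgebra ℂ B] [NormedRing B'] [NormedAlgebra ℂ B']

/-- The group of the invertible elements `u` with `u - 1 ∈ A` and `u⁻¹ - 1 ∈ A`. -/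
def GL1 (A : NonUnitalSubalgebra ℂ B) : Subgroup Bˣ where
  carrier := {u | (u : B) - 1 ∈ A ∧ ((u⁻¹ : Bˣ) : B) - 1 ∈ A}
  mul_mem' := by
    rintro u v ⟨h1, h2⟩ ⟨h3, h4⟩
    constructor
    · have h : ((u * v : Bˣ) : B) - 1 =
          ((u : B) - 1) * ((v : B) - 1) + ((u : B) - 1) + ((v : B) - 1) := by
        push_cast
        noncomm_ring
      rw [h]
      exact add_mem (add_mem (mul_mem h1 h3) h1) h3
    · have h : (((u * v)⁻¹ : Bˣ) : B) - 1 =
          (((v⁻¹ : Bˣ) : B) - 1) * (((u⁻¹ : Bˣ) : B) - 1) + (((v⁻¹ : Bˣ) : B) - 1) +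
            (((u⁻¹ : Bˣ) : B) - 1) := by
        rw [mul_inv_rev]
        push_cast
        noncomm_ring
      rw [h]
      exact add_mem (add_mem (mul_mem h4 h2) h4) h2
  one_mem' := by simp
  inv_mem' := by
    rintro u ⟨h1, h2⟩
    exact ⟨h2, by simpa using h1⟩

/-- The `K₁`-group of a stable Banach algebra `A`: the group `GL1 A` modulo its path component
of `1`. -/
abbrev K1 (A : NonUnitalSubalgebra ℂ B) : Type :=
  GL1 A ⧸ Subgroup.pathComponentOne (GL1 A)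

/-- The homomorphism `GL1 A → GL1 A'` induced by a ring homomorphism mapping `A` into `A'`. -/
def GL1.map {A : NonUnitalSubalgebra ℂ B} {A' : NonUnitalSubalgebra ℂ B'} (φ : B →+* B')
    (h : ∀ a ∈ A, φ a ∈ A') : GL1 A →* GL1 A' :=
  ((Units.map (φ : B →* B')).comp (GL1 A).subtype).codRestrict (GL1 A') (by
    rintro ⟨u, h1, h2⟩
    constructor
    · simpa using h _ h1
    · simpa using h _ h2)

lemma GL1.continuous_map {A : NonUnitalSubalgebra ℂ B} {A' : NonUnitalSubalgebra ℂ B'}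
    (φ : B →+* B') (hφ : Continuous φ) (h : ∀ a ∈ A, φ a ∈ A') :
    Continuous (GL1.map φ h) := by
  refine Continuous.subtype_mk ?_ _
  exact (Continuous.units_map (φ : B →* B') hφ).comp continuous_subtype_val

/-- The homomorphism `K₁(A) → K₁(A')` induced by a continuous ring homomorphism mapping `A` into
`A'`. -/
def K1.map {A : NonUnitalSubalgebra ℂ B} {A' : NonUnitalSubalgebra ℂ B'} (φ : B →+* B')
    (hφ : Continuous φ) (h : ∀ a ∈ A, φ a ∈ A') : K1 A →* K1 A' :=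
  QuotientGroup.map _ _ (GL1.map φ h) (by
    intro u hu
    have h1 : Joined (1 : GL1 A) u := hu
    have h2 := h1.map (GL1.continuous_map φ hφ h)
    rw [map_one] at h2
    exact h2)

end K

section Pull

variable {Γ Y Z : Type} [Group Γ]

/-- The pull back of families of operators along a map `p : Z → Y`. -/
def pull (p : Z → Y) : Fam Γ Y →+* Fam Γ Z where
  toFun a := Fam.mk (fun z => a (p z)) ‖a‖ (fun z => a.norm_apply_le (p z))
  map_one' := rfl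
  map_mul' _ _ := rfl
  map_zero' := rfl
  map_add' _ _ := rfl

lemma pull_norm_le (p : Z → Y) (a : Fam Γ Y) : ‖pull p a‖ ≤ ‖a‖ :=
  (Fam.norm_le_iff (norm_nonneg a)).2 fun z => a.norm_apply_le (p z)

lemma continuous_pull (p : Z → Y) : Continuous (pull p : Fam Γ Y →+* Fam Γ Z) :=
  AddMonoidHomClass.continuous_of_bound (pull p : Fam Γ Y →+* Fam Γ Z) 1
    (fun a => by simpa using pull_norm_le p a)

end Pull

/-! ### Convex spaces and open cones -/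

/-- A nonempty compact convex subset of a topological vector space with a linear `Γ`-action,
invariant under `Γ`. -/
structure ConvexSpace (Γ E : Type) [Group Γ] [AddCommGroup E] [Module ℝ E] [TopologicalSpace E]
    [DistribMulAction Γ E] where
  /-- the set -/
  carrier : Set E
  nonempty : carrier.Nonempty
  compact : IsCompact carrier
  convex : Convex ℝ carrier
  smul_mem : ∀ g : Γ, ∀ q ∈ carrier, g • q ∈ carrier

section Cone

variable {Γ E : Type} [Group Γ] [AddCommGroup E] [Module ℝ E] [TopologicalSpace E]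
  [DistribMulAction Γ E]

/-- The points of a convex space. -/
def ConvexSpace.Pt (Q : ConvexSpace Γ E) : Type := Q.carrier

/-- The open cone on a convex space `Q`: the points `(s q, s)` with `q ∈ Q`, `0 ≤ s < 1`. -/
def Cone (Q : ConvexSpace Γ E) : Type :=
  {w : E × ℝ // 0 ≤ w.2 ∧ w.2 < 1 ∧ ∃ q ∈ Q.carrier, w.1 = w.2 • q}

variable (Q : ConvexSpace Γ E)

instance : TopologicalSpace Q.Pt := inferInstanceAs (TopologicalSpace Q.carrier)

instance : MulAction Γ Q.Pt where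
  smul g q := ⟨g • q.1, Q.smul_mem g q.1 q.2⟩
  one_smul q := Subtype.ext (one_smul Γ q.1)
  mul_smul g h q := Subtype.ext (mul_smul g h q.1)

instance : TopologicalSpace (Cone Q) :=
  inferInstanceAs (TopologicalSpace {w : E × ℝ // 0 ≤ w.2 ∧ w.2 < 1 ∧ ∃ q ∈ Q.carrier, w.1 = w.2 • q})

variable [SMulCommClass Γ ℝ E]

instance : MulAction Γ (Cone Q) where
  smul g w := ⟨(g • w.1.1, w.1.2), w.2.1, w.2.2.1, by
    obtain ⟨q, hq, h⟩ := w.2.2.2
    exact ⟨g • q, Q.smul_mem g q hq, by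
      change g • w.1.1 = w.1.2 • g • q
      rw [h, smul_comm]⟩⟩
  one_smul w := Subtype.ext (Prod.ext (one_smul Γ w.1.1) rfl)
  mul_smul g h w := Subtype.ext (Prod.ext (mul_smul g h w.1.1) rfl)

end Cone

/-- The open cube `(0,1)^j`, with the trivial action of every group. -/
def Cube (j : ℕ) : Type := Fin j → Set.Ioo (0 : ℝ) 1

instance (j : ℕ) : TopologicalSpace (Cube j) :=
  inferInstanceAs (TopologicalSpace (Fin j → Set.Ioo (0 : ℝ) 1))

instance (Γ : Type) [Group Γ] (j : ℕ) : MulAction Γ (Cube j) where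
  smul _ v := v
  one_smul _ := rfl
  mul_smul _ _ _ := rfl

/-! ### Amenability -/

/-- The action of `Γ` on `Y` is (topologically) amenable: for every compact `K ⊆ Y`, finite
`F ⊆ Γ` and `ε > 0` there is a continuous family `m_y` of probability measures on `Γ`, supported
in a finite set, with `‖m_{h y} - h m_y‖₁ ≤ ε` for `h ∈ F` and `y ∈ K`. -/
def AmenableAction (Γ Y : Type) [Group Γ] [TopologicalSpace Y] [MulAction Γ Y] : Prop :=
  ∀ (K : Set Y) (F : Finset Γ) (ε : ℝ), IsCompact K → 0 < ε →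
    ∃ (S : Finset Γ) (m : Y → Γ → ℝ), (∀ g, Continuous fun y => m y g) ∧
      (∀ y g, 0 ≤ m y g) ∧ (∀ y, ∀ g ∉ S, m y g = 0) ∧ (∀ y, ∑ g ∈ S, m y g = 1) ∧
      ∀ y ∈ K, ∀ h ∈ F, ∑' g, |m (h • y) g - m y (h⁻¹ * g)| ≤ ε

/-- The discrete group `H` is amenable (Reiter's condition). -/
def AmenableGroup (H : Type) [Group H] : Prop :=
  ∀ (F : Finset H) (ε : ℝ), 0 < ε → ∃ (S : Finset H) (m : H → ℝ),
    (∀ g, 0 ≤ m g) ∧ (∀ g ∉ S, m g = 0) ∧ ∑ g ∈ S, m g = 1 ∧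
      ∀ h ∈ F, ∑' g, |m g - m (h⁻¹ * g)| ≤ ε

/-! ### Dimension -/

/-- The covering dimension of the (locally compact metrizable) space `X` is at most `d`: every
continuous map from a compact subset of `X` to `ℝ^{d+1}` is a uniform limit of continuous maps
which do not take the value `0`. -/
def DimLE (X : Type) [TopologicalSpace X] (d : ℕ) : Prop :=
  ∀ K : Set X, IsCompact K → ∀ (f : C(K, Fin (d + 1) → ℝ)) (ε : ℝ), 0 < ε →
    ∃ g : C(K, Fin (d + 1) → ℝ), (∀ x, dist (f x) (g x) < ε) ∧ ∀ x, g x ≠ 0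

/-! ### Subshifts of finite type -/

/-- The subshift of finite type over `Γ` with alphabet `{0, …, n - 1}`, window `F` and allowed
patterns `P`. -/
def SFT (Γ : Type) [Group Γ] (n : ℕ) (F : Finset Γ) (P : Set (F → Fin n)) : Type :=
  {z : Γ → Fin n // ∀ g : Γ, (fun s : F => z (g * s)) ∈ P}

section SFT

variable {Γ : Type} [Group Γ] {n : ℕ} {F : Finset Γ} {P : Set (F → Fin n)}

instance : TopologicalSpace (SFT Γ n F P) :=
  inferInstanceAs (TopologicalSpace {z : Γ → Fin n // ∀ g : Γ, (fun s : F => z (g * s)) ∈ P})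

instance : MulAction Γ (SFT Γ n F P) where
  smul h z := ⟨fun g => z.1 (h⁻¹ * g), fun g => by
    have h1 := z.2 (h⁻¹ * g)
    simpa only [mul_assoc] using h1⟩
  one_smul z := Subtype.ext (funext fun g => by
    change z.1 (1⁻¹ * g) = z.1 g
    rw [inv_one, one_mul])
  mul_smul h k z := Subtype.ext (funext fun g => by
    change z.1 ((h * k)⁻¹ * g) = z.1 (k⁻¹ * (h⁻¹ * g))
    rw [mul_inv_rev, mul_assoc])

end SFT

end Pool.Agent.Lib.MP_aa9b81_an.Cut
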