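import Pool.Agent.Lib.MP_aa9b81_an.CutM.Defs

/-!
# `K₁` of the crossed products in elementary terms
-/

open scoped ZeroAtInfty

noncomputable section

namespace Pool.Agent.Lib.MP_aa9b81_an.Cut

section

variable (Γ : Type) {Y Z : Type} [Group Γ] [TopologicalSpace Y] [MulAction Γ Y]
  [TopologicalSpace Z] [MulAction Γ Z]

/-- The family `a = (a_y)` of operators on `ℓ²(Γ × ℕ)` is a finite sum of the families
`f u_g ⊗ e_{ij}` (`f ∈ C₀(Y)`, `g ∈ Γ`): `(a_y ξ)(s, k) = ∑_m [k = i_m] f_m(s y) ξ(g_m⁻¹ s, j_m)`. -/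
def FinSum (a : Y → Op Γ) : Prop :=
  ∃ (n : ℕ) (f : Fin n → C₀(Y, ℂ)) (g : Fin n → Γ) (i j : Fin n → ℕ),
    ∀ (y : Y) (ξ : Hil Γ) (s : Γ) (k : ℕ), (a y ξ : Γ × ℕ → ℂ) (s, k) =
      ∑ m, if k = i m then f m (s • y) * (ξ : Γ × ℕ → ℂ) ((g m)⁻¹ * s, j m) else 0

omit [Group Γ] [TopologicalSpace Y] [MulAction Γ Y] in
/-- `‖a_y - b_y‖ ≤ ε` for all `y`. -/
def Near (a b : Y → Op Γ) (ε : ℝ) : Prop := ∀ y : Y, ‖a y - b y‖ ≤ ε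

/-- The stabilised reduced crossed product `A = (C₀(Y) ⋊_r Γ) ⊗ 𝒦`: the uniform limits of finite
sums as in `FinSum`. -/
def InA (a : Y → Op Γ) : Prop := ∀ ε : ℝ, 0 < ε → ∃ b : Y → Op Γ, FinSum Γ b ∧ Near Γ a b ε

/-- `u` is an invertible element of `1 + A`, with inverse in `1 + A`. -/
def Unit1 (u : Y → Op Γ) : Prop :=
  ∃ v : Y → Op Γ, (∀ y, u y * v y = 1 ∧ v y * u y = 1) ∧ InA Γ (fun y => u y - 1) ∧
    InA Γ (fun y => v y - 1)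

/-- `u` and `u'` are joined by a norm continuous path in the group of units of `Unit1`. -/
def Homot (u u' : Y → Op Γ) : Prop :=
  ∃ w : ℝ → Y → Op Γ, w 0 = u ∧ w 1 = u' ∧ (∀ t, Unit1 Γ (w t)) ∧
    ∀ t ε : ℝ, 0 < ε → ∃ δ : ℝ, 0 < δ ∧ ∀ t' : ℝ, |t' - t| < δ → Near Γ (w t') (w t) ε

variable (Y) in
/-- `K₁(C₀(Y) ⋊_r Γ) = 0`: every unit is homotopic to `1`. -/
def K1Zero : Prop := ∀ u : Y → Op Γ, Unit1 Γ u → Homot Γ u (fun _ => 1)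

/-- The map `p : Z → Y` induces a bijection `K₁(C₀(Y) ⋊_r Γ) → K₁(C₀(Z) ⋊_r Γ)` of the groups of
homotopy classes of units. -/
def K1Bij (p : Z → Y) : Prop :=
  (∀ u : Y → Op Γ, Unit1 Γ u → Unit1 Γ (fun z => u (p z))) ∧
    (∀ u u' : Y → Op Γ, Unit1 Γ u → Unit1 Γ u' →
      Homot Γ (fun z => u (p z)) (fun z => u' (p z)) → Homot Γ u u') ∧
    ∀ v : Z → Op Γ, Unit1 Γ v → ∃ u : Y → Op Γ, Unit1 Γ u ∧ Homot Γ (fun z => u (p z)) v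

end

end Pool.Agent.Lib.MP_aa9b81_an.Cut
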