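import Pool.Agent.Lib.MP_aa9b81_an.Mg.G077

/-!
# Cutting theorem, part Q
-/

noncomputable section

namespace Pool.Agent.Lib.MP_aa9b81_an.Cut

section PartQA1

open scoped ENNReal Topology ZeroAtInfty
open Filter Topology Set MulAction

/-- The one point compactification of a `Γ`-space. -/
def OP (Z : Type) : Type := OnePoint Z

/-- The inclusion of the space. -/
def OP.of {Z : Type} (z : Z) : OP Z := (z : OnePoint Z)

/-- The point at infinity. -/
def OP.inf {Z : Type} : OP Z := (OnePoint.infty : OnePoint Z)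

variable {Γ Z : Type} [Group Γ] [TopologicalSpace Z] [MulAction Γ Z]

instance : TopologicalSpace (OP Z) := inferInstanceAs (TopologicalSpace (OnePoint Z))

instance [T2Space Z] [LocallyCompactSpace Z] : T2Space (OP Z) :=
  inferInstanceAs (T2Space (OnePoint Z))

instance : CompactSpace (OP Z) := inferInstanceAs (CompactSpace (OnePoint Z))

instance : MulAction Γ (OP Z) where
  smul g x := OnePoint.map (fun z : Z => g • z) x
  one_smul x := by
    change OnePoint.map (fun z : Z => (1 : Γ) • z) x = x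
    have h : (fun z : Z => (1 : Γ) • z) = id := funext fun z => one_smul Γ z
    rw [h, OnePoint.map_id]
    rfl
  mul_smul g h x := by
    change OnePoint.map (fun z : Z => (g * h) • z) x =
      OnePoint.map (fun z : Z => g • z) (OnePoint.map (fun z : Z => h • z) x)
    have h1 : (fun z : Z => (g * h) • z) = (fun z : Z => g • z) ∘ fun z : Z => h • z :=
      funext fun z => mul_smul g h z
    rw [h1, OnePoint.map_comp]
    rfl

omit [TopologicalSpace Z] in
lemma OP.smul_of (g : Γ) (z : Z) : g • OP.of z = OP.of (g • z) := rfl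

omit [TopologicalSpace Z] in
lemma OP.smul_inf (g : Γ) : g • (OP.inf : OP Z) = OP.inf := rfl

/-- PROOF: `Homeomorph.smul g` (for the continuous constant action) and
`Homeomorph.onePointCongr`, or `OnePoint.continuous_map_iff` (preimages of compact sets under the
homeomorphism `z ↦ g z` are compact). -/
instance [ContinuousConstSMul Γ Z] : ContinuousConstSMul Γ (OP Z) := by
  refine ⟨fun g => ?_⟩
  have h : Continuous ((Homeomorph.smul g : Z ≃ₜ Z).onePointCongr : OnePoint Z → OnePoint Z) :=
    (Homeomorph.smul g : Z ≃ₜ Z).onePointCongr.continuous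
  exact h

/-- PROOF: let `x ≠ y`; one of them, say `x`, is in `Z` (`IsClopen` separation is symmetric by
complements). The compact open sets form a basis of `Z`: if `K` is a compact neighbourhood of `x`, then
a clopen `U ⊆ interior K` with `x ∈ U` (`loc_compact_Haus_tot_disc_of_zero_dim`: the clopen sets are a
basis) is compact; if `y ∈ Z` shrink so that `y ∉ U`. The image of `U` in `OP Z` is open and closed
(`OnePoint.isOpen_image_coe`, `OnePoint.isClosed_image_coe`). Conclude by
`isTotallyDisconnected_of_isClopen_set`. -/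
instance [T2Space Z] [LocallyCompactSpace Z] [TotallyDisconnectedSpace Z] :
    TotallyDisconnectedSpace (OP Z) := by
  have key : ∀ (z : Z) (y : OnePoint Z), (z : OnePoint Z) ≠ y →
      ∃ U : Set (OnePoint Z), IsClopen U ∧ (z : OnePoint Z) ∈ U ∧ y ∉ U := by
    intro z y hzy
    have hW : IsOpen {w : Z | (w : OnePoint Z) ≠ y} := by
      have h1 : IsOpen ({y}ᶜ : Set (OnePoint Z)) := isClosed_singleton.isOpen_compl
      exact h1.preimage OnePoint.continuous_coe
    obtain ⟨K, hK, hzK, hKW⟩ := exists_compact_subset hW (show z ∈ {w : Z | (w : OnePoint Z) ≠ y}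
      from hzy)
    obtain ⟨U, hU, hzU, hUK⟩ := (loc_compact_Haus_tot_disc_of_zero_dim
      (H := Z)).exists_subset_of_mem_open hzK isOpen_interior
    have hUc : IsCompact U := hK.of_isClosed_subset hU.1 (hUK.trans interior_subset)
    refine ⟨(fun w : Z => (w : OnePoint Z)) '' U, ⟨?_, ?_⟩, ⟨z, hzU, rfl⟩, ?_⟩
    · exact OnePoint.isClosed_image_coe.2 ⟨hU.1, hUc⟩
    · exact OnePoint.isOpen_image_coe.2 hU.2
    · rintro ⟨w, hw, hwy⟩
      exact hKW (interior_subset (hUK hw)) hwy
  have h0 : TotallySeparatedSpace (OnePoint Z) := by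
    refine totallySeparatedSpace_iff_exists_isClopen.2 ?_
    intro x y hxy
    change ∃ U : Set (OnePoint Z), IsClopen U ∧ x ∈ U ∧ y ∉ U
    induction x using OnePoint.rec with
    | infty =>
      induction y using OnePoint.rec with
      | infty => exact absurd rfl hxy
      | coe y =>
        obtain ⟨U, hU, h1, h2⟩ := key y _ hxy.symm
        exact ⟨Uᶜ, hU.compl, h2, fun h => h h1⟩
    | coe x => exact key x y hxy
  have h : TotallyDisconnectedSpace (OnePoint Z) := inferInstance
  exact h

/-- The inclusion `Z × V → OP Z × V`. -/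
def opO (Z V : Type) : Z × V → OP Z × V := fun x => (OP.of x.1, x.2)

/-- The inclusion `{∞} × V → OP Z × V`, where the one point space is the trivial subshift. -/
def opC (Γ Z V : Type) [Group Γ] : SFT Γ 1 ∅ Set.univ × V → OP Z × V := fun x => (OP.inf, x.2)

end PartQA1

section PartQA2

open scoped ENNReal Topology ZeroAtInfty
open Filter Topology Set MulAction

variable {Γ Z : Type} [Group Γ] [TopologicalSpace Z] [MulAction Γ Z]

variable {V : Type} [TopologicalSpace V] [T2Space V] [LocallyCompactSpace V] [MulAction Γ V]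
  [ContinuousConstSMul Γ V]

omit [T2Space V] [LocallyCompactSpace V] in
/-- PROOF: `OnePoint.isOpenEmbedding_coe`, product with the identity. -/
theorem isOpenEmbedding_opO : IsOpenEmbedding (opO Z V) :=
  (OnePoint.isOpenEmbedding_coe (X := Z)).prodMap IsOpenEmbedding.id

omit [MulAction Γ Z] [T2Space V] [LocallyCompactSpace V] [MulAction Γ V]
  [ContinuousConstSMul Γ V] in
/-- PROOF: `SFT Γ 1 ∅ univ` has exactly one point (`Fin 1` is a subsingleton), the point `∞` is closed:
`v ↦ (∞, v)` is a closed embedding. -/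
theorem isClosedEmbedding_opC [T2Space Z] [LocallyCompactSpace Z] :
    IsClosedEmbedding (opC Γ Z V) := by
  have hs : Subsingleton (SFT Γ 1 ∅ Set.univ) :=
    ⟨fun a b => Subtype.ext (funext fun g => Subsingleton.elim _ _)⟩
  have h1 : IsClosedEmbedding (fun _ : SFT Γ 1 ∅ Set.univ => (OP.inf : OP Z)) := by
    refine IsClosedEmbedding.of_continuous_injective_isClosedMap continuous_const
      (fun a b _ => Subsingleton.elim a b) fun s _ => ?_
    exact (Set.Subsingleton.image (Set.subsingleton_of_subsingleton) _).isClosed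
  exact h1.prodMap IsClosedEmbedding.id

omit [TopologicalSpace Z] [MulAction Γ Z] [TopologicalSpace V] [T2Space V]
  [LocallyCompactSpace V] [MulAction Γ V] [ContinuousConstSMul Γ V] in
/-- PROOF: a point of `OnePoint Z` is `∞` or in `Z`, not both; `SFT Γ 1 ∅ univ` is nonempty. -/
theorem range_opO : range (opO Z V) = (range (opC Γ Z V))ᶜ := by
  ext ⟨x, v⟩
  rw [mem_compl_iff]
  constructor
  · rintro ⟨⟨z, w⟩, h1⟩ ⟨⟨p, w'⟩, h2⟩
    have h3 : (OP.inf : OP Z) = OP.of z := (Prod.ext_iff.1 (h2.trans h1.symm)).1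
    exact OnePoint.infty_ne_coe z h3
  · intro h
    have hx : (x : OnePoint Z) ≠ OnePoint.infty := fun hx => h ⟨(⟨fun _ => 0,
      fun _ => mem_univ _⟩, v), Prod.ext hx.symm rfl⟩
    obtain ⟨z, hz⟩ := OnePoint.ne_infty_iff_exists.1 hx
    exact ⟨(z, v), Prod.ext hz rfl⟩

end PartQA2

section PartQA3

open scoped ENNReal Topology ZeroAtInfty
open Filter Topology Set MulAction

variable {Γ Z : Type} [Group Γ] [TopologicalSpace Z] [MulAction Γ Z]

variable {V : Type} [TopologicalSpace V] [T2Space V] [LocallyCompactSpace V] [MulAction Γ V]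
  [ContinuousConstSMul Γ V]

/-- PROOF: `GL1_le_E1_of_surj` for `P = OP Z × V`, `C = SFT Γ 1 ∅ univ × V`, `O = Z × V`: `hinj` is clear
since `GL1 ≤ E1` for `P`; `hsurj`: every `v ∈ GL1 (cp Γ (C × OO))` is in `E1` (`h1` transported along
`(A × V) × OO ≃ A × (V × OO)`, `GL1_le_E1_of_homeomorph`), so `u = 1` works. -/
theorem GL1_le_E1_of_OP [T2Space Z] [LocallyCompactSpace Z] [ContinuousConstSMul Γ Z]
    (hA : PropA Γ) (h0 : GL1 (cp Γ (OP Z × V)) ≤ E1 (cp Γ (OP Z × V)))
    (h1 : GL1 (cp Γ (SFT Γ 1 ∅ Set.univ × (V × OO))) ≤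
      E1 (cp Γ (SFT Γ 1 ∅ Set.univ × (V × OO)))) :
    GL1 (cp Γ (Z × V)) ≤ E1 (cp Γ (Z × V)) := by
  refine GL1_le_E1_of_surj (P := OP Z × V) (C := SFT Γ 1 ∅ Set.univ × V) (O := Z × V)
    (c := opC Γ Z V) (o := opO Z V) hA isClosedEmbedding_opC (fun _ _ => rfl) isOpenEmbedding_opO
    (fun _ _ => rfl) range_opO (fun u hu _ => h0 hu) ?_
  intro v hv
  refine ⟨1, one_mem _, ?_⟩
  rw [map_one, inv_one, one_mul]
  exact GL1_le_E1_of_homeomorph (Homeomorph.prodAssoc (SFT Γ 1 ∅ Set.univ) V OO).symm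
    (fun _ _ => rfl) h1 hv

end PartQA3

section PartQA4

open scoped ENNReal Topology ZeroAtInfty
open Filter Topology Set MulAction

variable {Γ Z : Type} [Group Γ] [TopologicalSpace Z] [MulAction Γ Z]

variable {V : Type} [TopologicalSpace V] [T2Space V] [LocallyCompactSpace V] [MulAction Γ V]
  [ContinuousConstSMul Γ V]

variable {E : Type} [AddCommGroup E] [Module ℝ E] [TopologicalSpace E] [T2Space E]
  [ContinuousAdd E] [ContinuousSMul ℝ E] [DistribMulAction Γ E] [SMulCommClass Γ ℝ E]
  [ContinuousConstSMul Γ E]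

/-- Split off the first coordinate of the cube. -/
private def QA4_homeo (W : Type) [TopologicalSpace W] (j : ℕ) :
    W × Cube (j + 1) ≃ₜ (W × Cube j) × OO where
  invFun x := (x.1.1, (Fin.cons x.2 x.1.2 : Fin (j + 1) → Set.Ioo (0 : ℝ) 1))
  toFun y := ((y.1, fun i => y.2 i.succ), y.2 0)
  right_inv _ := rfl
  left_inv y := Prod.ext rfl (Fin.cons_self_tail (α := fun _ => Set.Ioo (0 : ℝ) 1) y.2)
  continuous_invFun := by
    refine (continuous_fst.comp continuous_fst).prodMk ?_
    refine continuous_pi fun i => ?_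
    refine Fin.cases ?_ (fun i => ?_) i
    · exact continuous_snd
    · have h : Continuous fun c : Fin j → Set.Ioo (0 : ℝ) 1 => c i := continuous_apply i
      exact h.comp (continuous_snd.comp continuous_fst)
  continuous_toFun := by
    refine (continuous_fst.prodMk ?_).prodMk ?_
    · refine continuous_pi fun i => ?_
      have h : Continuous fun c : Fin (j + 1) → Set.Ioo (0 : ℝ) 1 => c i.succ :=
        continuous_apply i.succ
      exact h.comp continuous_snd
    · have h : Continuous fun c : Fin (j + 1) → Set.Ioo (0 : ℝ) 1 => c 0 := continuous_apply 0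
      exact h.comp continuous_snd

/-- SUBSHIFTS OF FINITE TYPE, LOCALLY COMPACT SPACES. PROOF: `sft_suffice` for the compact totally
disconnected space `OP Z`, and `GL1_le_E1_of_OP` with `V = Cone Q × Cube j` (`cone_locallyCompact`); for
`h1` use `h'` and the homeomorphism `Cone Q × Cube (j+1) ≃ (Cone Q × Cube j) × OO` (as in the proof of
`isoU_cube`: split off a coordinate; `GL1_le_E1_of_homeomorph`). `propA_of_convexSpace`. -/
theorem sft_suffice_lc [Countable Γ] (Q : ConvexSpace Γ E) (hQ : AmenableAction Γ Q.Pt) (j : ℕ)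
    (h : ∀ (n : ℕ) (F : Finset Γ) (P : Set (F → Fin n)),
      GL1 (cp Γ (SFT Γ n F P × Cone Q × Cube j)) ≤ E1 (cp Γ (SFT Γ n F P × Cone Q × Cube j)))
    (h' : GL1 (cp Γ (SFT Γ 1 ∅ Set.univ × Cone Q × Cube (j + 1))) ≤
      E1 (cp Γ (SFT Γ 1 ∅ Set.univ × Cone Q × Cube (j + 1))))
    [T2Space Z] [LocallyCompactSpace Z] [TotallyDisconnectedSpace Z] [ContinuousConstSMul Γ Z] :
    GL1 (cp Γ (Z × Cone Q × Cube j)) ≤ E1 (cp Γ (Z × Cone Q × Cube j)) := by
  have hcone := cone_locallyCompact Q
  refine GL1_le_E1_of_OP (V := Cone Q × Cube j) (propA_of_convexSpace Q hQ)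
    (sft_suffice Q hQ j h) ?_
  exact GL1_le_E1_of_homeomorph
    ((Homeomorph.refl (SFT Γ 1 ∅ Set.univ)).prodCongr (QA4_homeo (Cone Q) j)) (fun _ _ => rfl) h'

end PartQA4

section PartQA5

open scoped ENNReal Topology ZeroAtInfty
open Filter Topology Set MulAction

variable {Γ Z : Type} [Group Γ] [TopologicalSpace Z] [MulAction Γ Z]

variable {V : Type} [TopologicalSpace V] [T2Space V] [LocallyCompactSpace V] [MulAction Γ V]
  [ContinuousConstSMul Γ V]

variable {E : Type} [AddCommGroup E] [Module ℝ E] [TopologicalSpace E] [T2Space E]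
  [ContinuousAdd E] [ContinuousSMul ℝ E] [DistribMulAction Γ E] [SMulCommClass Γ ℝ E]
  [ContinuousConstSMul Γ E]

/-- SUBSHIFTS OF FINITE TYPE, FINITE DIMENSIONAL SPACES. PROOF: `cutting` gives `Z → X`; the vanishing
for `Z` and `j + 1` is `sft_suffice_lc`; for `u ∈ GL1` over `X`, `pullU (p × id) u ∈ GL1 ≤ E1` over
`Z` (`GL1_map`, `pull_mem_cp`), so `u ∈ E1` by the injectivity in `IsoU`. -/
theorem sft_suffice_dim [Countable Γ] (Q : ConvexSpace Γ E) (hQ : AmenableAction Γ Q.Pt) (j : ℕ)
    (h : ∀ (n : ℕ) (F : Finset Γ) (P : Set (F → Fin n)),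
      GL1 (cp Γ (SFT Γ n F P × Cone Q × Cube (j + 1))) ≤
        E1 (cp Γ (SFT Γ n F P × Cone Q × Cube (j + 1))))
    (h' : GL1 (cp Γ (SFT Γ 1 ∅ Set.univ × Cone Q × Cube (j + 2))) ≤
      E1 (cp Γ (SFT Γ 1 ∅ Set.univ × Cone Q × Cube (j + 2)))) {X : Type}
    [TopologicalSpace X] [TopologicalSpace.MetrizableSpace X] [LocallyCompactSpace X]
    [SigmaCompactSpace X] [MulAction Γ X] [ContinuousConstSMul Γ X] {d : ℕ} (hd : DimLE X d)
    (hX : ∀ x : X, AmenableGroup (stabilizer Γ x)) :
    GL1 (cp Γ (X × Cone Q × Cube (j + 1))) ≤ E1 (cp Γ (X × Cone Q × Cube (j + 1))) := by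
  obtain ⟨Z, _, _, p, hp, he, _, _, _, _, _, _, _, _, hiso⟩ := cutting Q hQ hd hX
  have hZ := sft_suffice_lc (Z := Z) Q hQ (j + 1) h h'
  have hpp : IsProperMap (Prod.map p (id : Cone Q × Cube (j + 1) → Cone Q × Cube (j + 1))) :=
    hp.prodMap isProperMap_id
  have hee : ∀ (g : Γ) (z : Z × Cone Q × Cube (j + 1)),
      Prod.map p (id : Cone Q × Cube (j + 1) → Cone Q × Cube (j + 1)) (g • z) =
        g • Prod.map p (id : Cone Q × Cube (j + 1) → Cone Q × Cube (j + 1)) z := by
    rintro g ⟨z, w⟩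
    exact Prod.ext (he g z) rfl
  intro u hu
  exact (hiso j).1 u hu (hZ (GL1_map (pull_mem_cp hpp hee) hu))

end PartQA5

end Pool.Agent.Lib.MP_aa9b81_an.Cut
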