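import Pool.Agent.Lib.MP_aa9b81_an.Mg.G074
import Pool.Agent.Lib.MP_aa9b81_an.Mg.G075

/-!
# Cutting theorem, part M
-/

noncomputable section

namespace Pool.Agent.Lib.MP_aa9b81_an.Cut

section PartLD1

open scoped ENNReal Topology ZeroAtInfty
open Filter Topology

variable {Γ Y : Type} [Group Γ] [TopologicalSpace Y] [MulAction Γ Y] [ContinuousConstSMul Γ Y]

/-- Urysohn. PROOF: Mathlib: `exists_continuous_one_of_compact_subset_open` or
`exists_continuous_one_zero_of_isCompact` / `exists_continuous_zero_one_of_isCompact` for locally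
compact Hausdorff spaces; make the support compact and inside `U` (choose an open `V` with
`K ⊆ V ⊆ closure V ⊆ U`, `closure V` compact, `exists_open_between_and_isCompact_closure`), and
turn the real function into an element of `C₀(Y, ℂ)`. -/
theorem exists_urysohn {Y : Type} [TopologicalSpace Y] [T2Space Y] [LocallyCompactSpace Y]
    {K U : Set Y} (hK : IsCompact K) (hU : IsOpen U) (hKU : K ⊆ U) :
    ∃ e : C₀(Y, ℂ), (∀ y, ∃ r : ℝ, 0 ≤ r ∧ r ≤ 1 ∧ e y = r) ∧ HasCompactSupport e ∧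
      tsupport e ⊆ U ∧ ∀ y ∈ K, e y = 1 := by
  obtain ⟨V, hV, hKV, hVU, hVc⟩ := exists_open_between_and_isCompact_closure hK hU hKU
  obtain ⟨f, hf1, hf0, hfc, hf01⟩ := exists_continuous_one_zero_of_isCompact hK hV.isClosed_compl
    (Set.disjoint_compl_right_iff_subset.mpr hKV)
  have hsupp : HasCompactSupport (fun y => (f y : ℂ)) := by
    have h1 : HasCompactSupport (((↑) : ℝ → ℂ) ∘ f) := hfc.comp_left Complex.ofReal_zero
    exact h1
  refine ⟨⟨⟨fun y => (f y : ℂ), Complex.continuous_ofReal.comp f.continuous⟩,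
    hsupp.is_zero_at_infty⟩, ?_, hsupp, ?_, ?_⟩
  · intro y
    exact ⟨f y, (hf01 y).1, (hf01 y).2, rfl⟩
  · refine subset_trans (closure_mono ?_) hVU
    intro y hy
    by_contra hyV
    apply hy
    change (f y : ℂ) = 0
    rw [hf0 hyV]
    simp
  · intro y hy
    change (f y : ℂ) = 1
    rw [hf1 hy]
    simp

end PartLD1

section PartLD2

open scoped ENNReal Topology ZeroAtInfty
open Filter Topology

variable {Γ Y : Type} [Group Γ] [TopologicalSpace Y] [MulAction Γ Y] [ContinuousConstSMul Γ Y]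

omit [Group Γ] [MulAction Γ Y] [ContinuousConstSMul Γ Y] in
theorem LD2_norm_le {f : C₀(Y, ℂ)} {C : ℝ} (hC : 0 ≤ C) (h : ∀ y, ‖f y‖ ≤ C) : ‖f‖ ≤ C := by
  rw [← ZeroAtInftyContinuousMap.norm_toBCF_eq_norm]
  exact (BoundedContinuousFunction.norm_le hC).2 h

/-- the list of the data `f - f * shift g e` -/
theorem LD2_val_sub (l : List (Dat Γ Y)) (e : C₀(Y, ℂ)) :
    val l - val l * dg e =
      val (l.map fun d => (⟨d.f - d.f * shift d.g e, d.g, d.i, d.j⟩ : Dat Γ Y)) := by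
  rw [val_mul_dg]
  induction l with
  | nil => simp [val_nil]
  | cons d l ih =>
    rw [List.map_cons, List.map_cons, val_cons, val_cons, val_cons, ← ih, add_sub_add_comm]
    congr 1
    exact (gen_sub d.f (d.f * shift d.g e) d.g d.i d.j).symm

theorem LD2_nrm_le (l : List (Dat Γ Y)) {e : C₀(Y, ℂ)}
    (he : ∀ y, ∃ r : ℝ, 0 ≤ r ∧ r ≤ 1 ∧ e y = r) :
    nrm (l.map fun d => (⟨d.f - d.f * shift d.g e, d.g, d.i, d.j⟩ : Dat Γ Y)) ≤ nrm l := by
  induction l with
  | nil => exact le_refl _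
  | cons d l ih =>
    have e1 : nrm ((d :: l).map fun d => (⟨d.f - d.f * shift d.g e, d.g, d.i, d.j⟩ : Dat Γ Y)) =
        ‖d.f - d.f * shift d.g e‖ +
          nrm (l.map fun d => (⟨d.f - d.f * shift d.g e, d.g, d.i, d.j⟩ : Dat Γ Y)) := by
      simp [nrm]
    have e2 : nrm (d :: l) = ‖d.f‖ + nrm l := by simp [nrm]
    rw [e1, e2]
    refine add_le_add (LD2_norm_le (norm_nonneg _) fun y => ?_) ih
    obtain ⟨r, h0, h1, hr⟩ := he (d.g⁻¹ • y)
    have e3 : (d.f - d.f * shift d.g e) y = d.f y * ((1 - r : ℝ) : ℂ) := by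
      have : (d.f - d.f * shift d.g e) y = d.f y - d.f y * e (d.g⁻¹ • y) := rfl
      rw [this, hr]
      push_cast
      ring
    rw [e3, norm_mul, Complex.norm_real, Real.norm_of_nonneg (by linarith)]
    have h2 : ‖d.f y‖ ≤ ‖d.f‖ := d.f.toBCF.norm_coe_le_norm y
    nlinarith [norm_nonneg (d.f y)]

/-- PROOF. Let `M = ‖pull c (val l)‖`: for `y = c x`, `‖val l y ξ‖ ≤ M ‖ξ‖`, so
`wnorm S l y ≤ M` on the closed invariant set `C = range c`. Let `G` = the finite set of the `d.g`,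
`N = nrm l`, and let `S` be the window of `exists_window hA G` for `ε' = ε / (2 (N + 1))` (it does not
depend on the functions). The set `K = {y | M + ε / 2 ≤ wnorm S l y}` is compact
(`isCompact_wnorm_ge`, `M + ε/2 > 0`) and disjoint from `C`. `K' = ⋃_{s ∈ S} s • K` is compact and
disjoint from the invariant set `C`. `exists_urysohn` gives `e` with `e = 1` on `K'`, support in
`Cᶜ`. Now `val l - val l * dg e = val l'` with `l'` = the list of the data `f - f * shift g e`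
(`val_mul_dg`, `gen_sub`), `nrm l' ≤ nrm l` (`‖f (1 - e(g⁻¹ ·))‖ ≤ ‖f‖`). For `ξ` supported in `S`
and any `y`: `val l' y ξ = val l y ξ'` with `ξ'(s,k) = (1 - e(s y)) ξ(s,k)`, supported in `S`,
`‖ξ'‖ ≤ ‖ξ‖`. If `y ∈ K` then `s y ∈ K'`, `1 - e(s y) = 0` for `s ∈ S`, so it is `0`. If `y ∉ K`:
`‖val l y ξ'‖ ≤ wnorm S l y ‖ξ'‖ ≤ (M + ε/2) ‖ξ‖`. So `exists_window` gives
`‖val l'‖ ≤ M + ε/2 + ε' nrm l' ≤ M + ε`. -/
theorem exists_cutoff_val [T2Space Y] [LocallyCompactSpace Y] (hA : PropA Γ) {C : Type}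
    [TopologicalSpace C] [MulAction Γ C] {c : C → Y} (hc : IsClosedEmbedding c)
    (he : ∀ (g : Γ) x, c (g • x) = g • c x) (l : List (Dat Γ Y)) {ε : ℝ} (hε : 0 < ε) :
    ∃ e : C₀(Y, ℂ), (∀ y, ∃ r : ℝ, 0 ≤ r ∧ r ≤ 1 ∧ e y = r) ∧ HasCompactSupport e ∧
      tsupport e ⊆ (Set.range c)ᶜ ∧ ‖val l - val l * dg e‖ ≤ ‖pull c (val l)‖ + ε := by
  classical
  set M : ℝ := ‖(pull c (val l) : Fam Γ C)‖ with hM
  have hM0 : 0 ≤ M := norm_nonneg _
  have hN0 : 0 ≤ nrm l := (norm_nonneg _).trans (norm_val_le l)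
  set ε' : ℝ := ε / (2 * (nrm l + 1)) with hε'
  have hε'0 : 0 < ε' := by positivity
  obtain ⟨S, hS⟩ := exists_window hA (l.map Dat.g).toFinset hε'0
  have hK : IsCompact {y | M + ε / 2 ≤ wnorm S l y} := isCompact_wnorm_ge S l (by positivity)
  have hKc : ∀ y ∈ {y | M + ε / 2 ≤ wnorm S l y}, y ∉ Set.range c := by
    rintro _ hy ⟨x, rfl⟩
    have h1 : wnorm S l (c x) ≤ M := by
      refine wnorm_le S l _ hM0 fun ξ _ => ?_
      have h2 : ‖val l (c x)‖ ≤ M := Fam.norm_apply_le (pull c (val l) : Fam Γ C) x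
      exact (ContinuousLinearMap.le_opNorm _ _).trans
        (mul_le_mul_of_nonneg_right h2 (norm_nonneg _))
    have h3 : M + ε / 2 ≤ wnorm S l (c x) := hy
    linarith
  have hK' : IsCompact (⋃ s ∈ S, (fun y => s • y) '' {y | M + ε / 2 ≤ wnorm S l y}) :=
    S.isCompact_biUnion fun s _ => hK.image (continuous_const_smul s)
  have hsub : (⋃ s ∈ S, (fun y => s • y) '' {y | M + ε / 2 ≤ wnorm S l y}) ⊆ (Set.range c)ᶜ := by
    intro z hz
    rw [Set.mem_iUnion₂] at hz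
    obtain ⟨s, -, y, hy, rfl⟩ := hz
    rintro ⟨x, hx⟩
    refine hKc y hy ⟨s⁻¹ • x, ?_⟩
    rw [he, hx]
    exact inv_smul_smul s y
  obtain ⟨e, he01, hcs, hts, he1⟩ := exists_urysohn hK' hc.isClosed_range.isOpen_compl hsub
  refine ⟨e, he01, hcs, hts, ?_⟩
  rw [LD2_val_sub]
  have hwin : ∀ y (ξ : Hil Γ), SuppIn (S : Set Γ) ξ →
      ‖val (l.map fun d => (⟨d.f - d.f * shift d.g e, d.g, d.i, d.j⟩ : Dat Γ Y)) y ξ‖ ≤
        (M + ε / 2) * ‖ξ‖ := by
    intro y ξ hξ
    rw [← LD2_val_sub]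
    have e1 : (val l - val l * dg e : Fam Γ Y) y ξ = val l y (ξ - dg e y ξ) := by
      rw [map_sub]
      rfl
    rw [e1]
    have e2 : ∀ s k, ((ξ - dg e y ξ : Hil Γ) : Γ × ℕ → ℂ) (s, k) =
        (1 - e (s • y)) * (ξ : Γ × ℕ → ℂ) (s, k) := by
      intro s k
      have : ((ξ - dg e y ξ : Hil Γ) : Γ × ℕ → ℂ) (s, k) =
        (ξ : Γ × ℕ → ℂ) (s, k) - (dg e y ξ : Γ × ℕ → ℂ) (s, k) := rfl
      rw [this, dg_apply]
      ring
    have hsupp : SuppIn (S : Set Γ) (ξ - dg e y ξ) := by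
      intro s k hs
      rw [e2, hξ s k hs, mul_zero]
    have hn : ‖ξ - dg e y ξ‖ ≤ ‖ξ‖ := by
      have h1 : ‖ξ - dg e y ξ‖ ^ 2 ≤ ‖ξ‖ ^ 2 := by
        rw [LB1_norm_sq, LB1_norm_sq]
        refine (summable_hil _).tsum_le_tsum (fun p => ?_) (summable_hil ξ)
        rw [show p = (p.1, p.2) from rfl, e2]
        obtain ⟨r, h0, h1, hr⟩ := he01 (p.1 • y)
        have e3 : (1 - e (p.1 • y)) = ((1 - r : ℝ) : ℂ) := by rw [hr]; push_cast; rfl
        rw [e3, norm_mul, Complex.norm_real, Real.norm_of_nonneg (by linarith)]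
        exact pow_le_pow_left₀ (mul_nonneg (by linarith) (norm_nonneg _))
          (mul_le_of_le_one_left (norm_nonneg _) (by linarith)) 2
      exact (pow_le_pow_iff_left₀ (norm_nonneg _) (norm_nonneg _) two_ne_zero).1 h1
    by_cases hy : M + ε / 2 ≤ wnorm S l y
    · have h0 : ξ - dg e y ξ = 0 := by
        ext1
        funext p
        rw [show p = (p.1, p.2) from rfl, e2]
        by_cases hp : p.1 ∈ S
        · rw [he1 (p.1 • y) (Set.mem_iUnion₂.2 ⟨p.1, hp, y, hy, rfl⟩)]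
          simp
        · rw [hξ p.1 p.2 (by simpa using hp), mul_zero]
          rfl
      rw [h0, map_zero, norm_zero]
      positivity
    · rw [not_le] at hy
      have h1 := le_wnorm S l y hsupp
      have h2 : wnorm S l y * ‖ξ - dg e y ξ‖ ≤ (M + ε / 2) * ‖ξ - dg e y ξ‖ :=
        mul_le_mul_of_nonneg_right hy.le (norm_nonneg _)
      have h3 : (M + ε / 2) * ‖ξ - dg e y ξ‖ ≤ (M + ε / 2) * ‖ξ‖ :=
        mul_le_mul_of_nonneg_left hn (by positivity)
      linarith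
  have h4 := hS Y _ (fun d hd => by
    rw [List.mem_map] at hd
    obtain ⟨d', hd', rfl⟩ := hd
    exact List.mem_toFinset.2 (List.mem_map.2 ⟨d', hd', rfl⟩)) (M + ε / 2) (by positivity) hwin
  have h5 := LD2_nrm_le l he01
  have h6 : ε' * nrm (l.map fun d => (⟨d.f - d.f * shift d.g e, d.g, d.i, d.j⟩ : Dat Γ Y)) ≤
      ε / 2 := by
    refine (mul_le_mul_of_nonneg_left h5 hε'0.le).trans ?_
    rw [hε', div_mul_eq_mul_div, div_le_div_iff₀ (by positivity) (by norm_num)]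
    nlinarith
  linarith

end PartLD2

section PartLD3

open scoped ENNReal Topology ZeroAtInfty
open Filter Topology

variable {Γ Y : Type} [Group Γ] [TopologicalSpace Y] [MulAction Γ Y] [ContinuousConstSMul Γ Y]

/-- PROOF: approximate `a` by `val l` up to `ε/4` (`exists_val_near`), `exists_cutoff_val` with
`ε/4`; `‖1 - dg e‖ ≤ 1` (as `0 ≤ e ≤ 1`; or use `‖a * dg e - val l * dg e‖ ≤ ‖a - val l‖`,
`norm_dg_le`, `‖e‖ ≤ 1`). -/
theorem exists_cutoff [T2Space Y] [LocallyCompactSpace Y] (hA : PropA Γ) {C : Type}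
    [TopologicalSpace C] [MulAction Γ C] {c : C → Y} (hc : IsClosedEmbedding c)
    (he : ∀ (g : Γ) x, c (g • x) = g • c x) {a : Fam Γ Y} (ha : a ∈ cp Γ Y) {ε : ℝ} (hε : 0 < ε) :
    ∃ e : C₀(Y, ℂ), (∀ y, ∃ r : ℝ, 0 ≤ r ∧ r ≤ 1 ∧ e y = r) ∧ HasCompactSupport e ∧
      tsupport e ⊆ (Set.range c)ᶜ ∧ ‖a - a * dg e‖ ≤ ‖pull c a‖ + ε := by
  obtain ⟨l, -, hl⟩ := exists_val_near ha (show (0 : ℝ) < ε / 4 by positivity)
  obtain ⟨e, he01, hcs, hts, hle⟩ := exists_cutoff_val hA hc he l (show (0 : ℝ) < ε / 4 by positivity)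
  refine ⟨e, he01, hcs, hts, ?_⟩
  have he1 : ‖e‖ ≤ 1 := by
    rw [← ZeroAtInftyContinuousMap.norm_toBCF_eq_norm]
    refine (BoundedContinuousFunction.norm_le zero_le_one).2 fun y => ?_
    obtain ⟨r, h0, h1, hr⟩ := he01 y
    have e1 : e.toBCF y = (r : ℂ) := hr
    rw [e1, Complex.norm_real, Real.norm_of_nonneg h0]
    exact h1
  have h1 : a - a * dg e = (a - val l) + (val l - val l * dg e) + (val l - a) * dg e := by
    rw [sub_mul]
    abel
  have h2 : ‖(val l - a) * dg e‖ ≤ ε / 4 := by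
    refine (norm_mul_le _ _).trans ?_
    have h3 : ‖val l - a‖ ≤ ε / 4 := by
      rw [norm_sub_rev]
      exact hl.le
    calc ‖val l - a‖ * ‖(dg e : Fam Γ Y)‖ ≤ ε / 4 * 1 :=
          mul_le_mul h3 ((norm_dg_le e).trans he1) (norm_nonneg _) (by positivity)
      _ = ε / 4 := mul_one _
  have h4 : ‖(pull c (val l) : Fam Γ C)‖ ≤ ‖(pull c a : Fam Γ C)‖ + ε / 4 := by
    have h5 : (pull c (val l) : Fam Γ C) = pull c a + pull c (val l - a) := by
      rw [map_sub]
      abel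
    rw [h5]
    refine (norm_add_le _ _).trans (add_le_add_right ?_ _)
    refine (pull_norm_le _ _).trans ?_
    rw [norm_sub_rev]
    exact hl.le
  rw [h1]
  have h6 := norm_add_le ((a - val l) + (val l - val l * dg e)) ((val l - a) * dg e)
  have h7 := norm_add_le (a - val l) (val l - val l * dg e)
  linarith

end PartLD3

section PartLD4

open scoped ENNReal Topology ZeroAtInfty
open Filter Topology

variable {Γ Y : Type} [Group Γ] [TopologicalSpace Y] [MulAction Γ Y] [ContinuousConstSMul Γ Y]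

private theorem LD4_gen {C O : Type} [TopologicalSpace C] [TopologicalSpace O]
    [MulAction Γ O] {c : C → Y} {o : O → Y} (ho : IsOpenEmbedding o)
    (heo : ∀ (g : Γ) x, o (g • x) = g • o x) (hco : Set.range o = (Set.range c)ᶜ)
    {e : C₀(Y, ℂ)} (he : HasCompactSupport e) (hs : tsupport e ⊆ (Set.range c)ᶜ)
    (f : C₀(Y, ℂ)) (g : Γ) (i j : ℕ) :
    ∃ b ∈ cp Γ O, extF o b = (gen f g i j * dg e : Fam Γ Y) := by
  set T : Set Y := (fun y => g⁻¹ • y) ⁻¹' tsupport e with hT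
  have hTc : IsCompact T := by
    have h1 : IsCompact ((Homeomorph.smul g⁻¹ : Y ≃ₜ Y) ⁻¹' tsupport e) :=
      (Homeomorph.smul g⁻¹ : Y ≃ₜ Y).isClosedEmbedding.isCompact_preimage he
    exact h1
  have hTo : T ⊆ Set.range o := by
    intro y hy
    have h1 : g⁻¹ • y ∈ Set.range o := by
      rw [hco]
      exact hs hy
    obtain ⟨x, hx⟩ := h1
    exact ⟨g • x, by rw [heo, hx, smul_inv_smul]⟩
  have hF : ∀ y ∉ T, (f * shift g e) y = 0 := by
    intro y hy
    have h1 : e (g⁻¹ • y) = 0 := by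
      by_contra h2
      exact hy (subset_tsupport _ h2)
    change f y * e (g⁻¹ • y) = 0
    rw [h1, mul_zero]
  have hK : IsCompact (o ⁻¹' T) := (ho.isInducing.isCompact_preimage_iff hTo).mpr hTc
  have hcont : Continuous fun x => (f * shift g e) (o x) :=
    (f * shift g e).continuous.comp ho.continuous
  have hz : Tendsto (fun x => (f * shift g e) (o x)) (cocompact O) (𝓝 0) := by
    refine Tendsto.congr' ?_ tendsto_const_nhds
    filter_upwards [hK.compl_mem_cocompact] with x hx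
    exact (hF (o x) hx).symm
  let f' : C₀(O, ℂ) := ⟨⟨fun x => (f * shift g e) (o x), hcont⟩, hz⟩
  have hf' : ∀ x, f' x = (f * shift g e) (o x) := fun x => rfl
  refine ⟨gen f' g i j, ?_, ?_⟩
  · have h1 := val_mem [(⟨f', g, i, j⟩ : Dat Γ O)]
    rw [val_cons, val_nil, add_zero] at h1
    exact h1
  · rw [gen_mul_dg]
    refine Fam.ext fun y => ?_
    by_cases hy : y ∈ Set.range o
    · obtain ⟨x, rfl⟩ := hy
      rw [extF_apply ho.injective]
      refine ContinuousLinearMap.ext fun ξ => ?_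
      refine lp.ext (funext fun p => ?_)
      obtain ⟨s, k⟩ := p
      rw [gen_apply, gen_apply, hf', heo]
    · rw [extF_apply_of_notMem _ hy]
      refine ContinuousLinearMap.ext fun ξ => ?_
      refine lp.ext (funext fun p => ?_)
      obtain ⟨s, k⟩ := p
      rw [gen_apply]
      have h2 : (f * shift g e) (s • y) = 0 := by
        refine hF _ fun h3 => hy ?_
        obtain ⟨x, hx⟩ := hTo h3
        exact ⟨s⁻¹ • x, by rw [heo, hx, inv_smul_smul]⟩
      rw [h2, zero_mul]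
      split_ifs <;> rfl

private theorem LD4_val {C O : Type} [TopologicalSpace C] [TopologicalSpace O]
    [MulAction Γ O] {c : C → Y} {o : O → Y} (ho : IsOpenEmbedding o)
    (heo : ∀ (g : Γ) x, o (g • x) = g • o x) (hco : Set.range o = (Set.range c)ᶜ)
    {e : C₀(Y, ℂ)} (he : HasCompactSupport e) (hs : tsupport e ⊆ (Set.range c)ᶜ)
    (l : List (Dat Γ Y)) : ∃ b ∈ cp Γ O, extF o b = val l * dg e := by
  induction l with
  | nil => exact ⟨0, zero_mem _, by rw [val_nil, zero_mul, map_zero]⟩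
  | cons d l ih =>
    obtain ⟨b, hb, hb'⟩ := ih
    obtain ⟨b₁, hb₁, hb₁'⟩ := LD4_gen ho heo hco he hs d.f d.g d.i d.j
    refine ⟨b₁ + b, add_mem hb₁ hb, ?_⟩
    rw [map_add, hb', hb₁', val_cons, add_mul]
    rfl

/-- PROOF: `gen f g i j * dg e = gen (f * shift g e) g i j` and the support of `f * shift g e` is a
compact subset of `g • tsupport e ⊆ (range c)ᶜ = range o`. The function
`f' = (f * shift g e) ∘ o` is in `C₀(O)` (compact support: `o` is an open embedding, the preimage of a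
compact subset of the range is compact) and `extF o (gen f' g i j) = gen (f * shift g e) g i j`.
For `val l`: induction. For `a ∈ cp`: the range of `cp Γ O` under the isometric map `extF o` is
closed (`norm_extF`, `isClosed_cp`, completeness), `exists_val_near`. -/
theorem mul_dg_mem_ext [T2Space Y] {C O : Type} [TopologicalSpace C] [TopologicalSpace O]
    [MulAction Γ O] {c : C → Y} {o : O → Y} (ho : IsOpenEmbedding o)
    (heo : ∀ (g : Γ) x, o (g • x) = g • o x) (hco : Set.range o = (Set.range c)ᶜ)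
    {a : Fam Γ Y} (ha : a ∈ cp Γ Y) {e : C₀(Y, ℂ)} (he : HasCompactSupport e)
    (hs : tsupport e ⊆ (Set.range c)ᶜ) : ∃ b ∈ cp Γ O, extF o b = a * dg e := by
  have hiso : Isometry (extF o : Fam Γ O →ₙ+* Fam Γ Y) := by
    refine Isometry.of_dist_eq fun x y => ?_
    rw [dist_eq_norm, dist_eq_norm, ← map_sub, norm_extF ho.injective]
  have hcl : IsClosed ((extF o : Fam Γ O →ₙ+* Fam Γ Y) '' (cp Γ O : Set (Fam Γ O))) :=
    hiso.isClosedEmbedding.isClosedMap _ isClosed_cp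
  have hmem : a * dg e ∈ closure ((extF o : Fam Γ O →ₙ+* Fam Γ Y) '' (cp Γ O : Set (Fam Γ O))) := by
    rw [Metric.mem_closure_iff]
    intro ε hε
    have hD : 0 < ‖(dg e : Fam Γ Y)‖ + 1 := by positivity
    obtain ⟨l, -, hl⟩ := exists_val_near ha (div_pos hε hD)
    obtain ⟨b, hb, hb'⟩ := LD4_val ho heo hco he hs l
    refine ⟨val l * dg e, ⟨b, hb, hb'⟩, ?_⟩
    rw [dist_eq_norm, ← sub_mul]
    calc ‖(a - val l) * dg e‖ ≤ ‖a - val l‖ * ‖(dg e : Fam Γ Y)‖ := norm_mul_le _ _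
      _ ≤ ‖a - val l‖ * (‖(dg e : Fam Γ Y)‖ + 1) := by
          refine mul_le_mul_of_nonneg_left (by linarith) (norm_nonneg _)
      _ < ε / (‖(dg e : Fam Γ Y)‖ + 1) * (‖(dg e : Fam Γ Y)‖ + 1) :=
          mul_lt_mul_of_pos_right hl hD
      _ = ε := div_mul_cancel₀ _ hD.ne'
  rw [hcl.closure_eq] at hmem
  obtain ⟨b, hb, hb'⟩ := hmem
  exact ⟨b, hb, hb'⟩

end PartLD4

section PartLD5

open scoped ENNReal Topology ZeroAtInfty
open Filter Topology

variable {Γ Y : Type} [Group Γ] [TopologicalSpace Y] [MulAction Γ Y] [ContinuousConstSMul Γ Y]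

/-- EXACTNESS. PROOF: by `exists_cutoff`, `a` is a limit of elements `a * dg e`, which are in the
closed set `extF o '' cp Γ O` by `mul_dg_mem_ext` (closed because `extF o` is isometric and `cp Γ O`
is complete). -/
theorem mem_ext_of_pull_eq_zero [T2Space Y] [LocallyCompactSpace Y] (hA : PropA Γ) {C O : Type}
    [TopologicalSpace C] [MulAction Γ C] [TopologicalSpace O] [MulAction Γ O] {c : C → Y} {o : O → Y}
    (hc : IsClosedEmbedding c) (hec : ∀ (g : Γ) x, c (g • x) = g • c x)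
    (ho : IsOpenEmbedding o) (heo : ∀ (g : Γ) x, o (g • x) = g • o x)
    (hco : Set.range o = (Set.range c)ᶜ) {a : Fam Γ Y} (ha : a ∈ cp Γ Y) (h : pull c a = 0) :
    ∃ b ∈ cp Γ O, extF o b = a := by
  have hiso : Isometry (extF o : Fam Γ O →ₙ+* Fam Γ Y) := by
    refine Isometry.of_dist_eq fun x y => ?_
    rw [dist_eq_norm, dist_eq_norm, ← map_sub, norm_extF ho.injective]
  have hcl : IsClosed ((extF o : Fam Γ O →ₙ+* Fam Γ Y) '' (cp Γ O : Set (Fam Γ O))) :=
    hiso.isClosedEmbedding.isClosedMap _ isClosed_cp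
  have hmem : a ∈ closure ((extF o : Fam Γ O →ₙ+* Fam Γ Y) '' (cp Γ O : Set (Fam Γ O))) := by
    rw [Metric.mem_closure_iff]
    intro ε hε
    obtain ⟨e, -, he, hes, hen⟩ := exists_cutoff hA hc hec ha (half_pos hε)
    obtain ⟨b, hb, hb'⟩ := mul_dg_mem_ext ho heo hco ha he hes
    refine ⟨a * dg e, ⟨b, hb, hb'⟩, ?_⟩
    rw [dist_eq_norm]
    rw [h, norm_zero, zero_add] at hen
    linarith
  rw [hcl.closure_eq] at hmem
  obtain ⟨b, hb, hb'⟩ := hmem
  exact ⟨b, hb, hb'⟩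

end PartLD5

section PartLE1

open scoped ENNReal Topology ZeroAtInfty
open Filter Topology

/-- PROOF (Tietze): the one point compactification `OnePoint Y` is compact Hausdorff, so normal;
`C' = c '' C ∪ {∞}` is closed in it; `f` with `f(∞) = 0` is continuous on `C'`; extend it to a
continuous function on `OnePoint Y` (`ContinuousMap.exists_restrict_eq`, `TietzeExtension ℂ`),
restrict to `Y`: it vanishes at infinity because it is continuous at `∞` with the value `0`. -/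
theorem exists_extend_C0 {C Y : Type} [TopologicalSpace Y] [T2Space Y] [LocallyCompactSpace Y]
    [TopologicalSpace C] {c : C → Y} (hc : IsClosedEmbedding c) (f : C₀(C, ℂ)) :
    ∃ F : C₀(Y, ℂ), ∀ x, F (c x) = f x := by
  have hT2 : T2Space C := hc.isEmbedding.t2Space
  have htend : Tendsto c (coclosedCompact C) (coclosedCompact Y) := by
    rw [coclosedCompact_eq_cocompact, coclosedCompact_eq_cocompact]
    exact hc.tendsto_cocompact
  have hec : Continuous (OnePoint.map c) := OnePoint.continuous_map hc.continuous htend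
  have hei : Function.Injective (OnePoint.map c) := Option.map_injective hc.injective
  have he : IsClosedEmbedding (OnePoint.map c) := hec.isClosedEmbedding hei
  have hf0 : Tendsto (f.toContinuousMap : C → ℂ) (coclosedCompact C) (𝓝 0) := by
    rw [coclosedCompact_eq_cocompact]
    exact f.zero_at_infty'
  obtain ⟨g, hg⟩ := ContinuousMap.exists_extension' he
    (OnePoint.continuousMapMk f.toContinuousMap 0 hf0)
  have hg0 : g OnePoint.infty = 0 := congrFun hg OnePoint.infty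
  refine ⟨⟨⟨fun y => g (y : OnePoint Y), g.continuous.comp OnePoint.continuous_coe⟩, ?_⟩, ?_⟩
  · have h1 : Tendsto g (𝓝 OnePoint.infty) (𝓝 0) := by
      rw [← hg0]
      exact g.continuous.tendsto _
    have h2 : Tendsto ((↑) : Y → OnePoint Y) (cocompact Y) (𝓝 OnePoint.infty) := by
      rw [← coclosedCompact_eq_cocompact]
      exact OnePoint.tendsto_coe_infty
    exact h1.comp h2
  · intro x
    exact congrFun hg (x : OnePoint C)

end PartLE1

section PartLE2

open scoped ENNReal Topology ZeroAtInfty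
open Filter Topology

variable {Γ Y : Type} [Group Γ] [TopologicalSpace Y] [MulAction Γ Y] [ContinuousConstSMul Γ Y]
  [T2Space Y] [LocallyCompactSpace Y] {C O : Type} [TopologicalSpace C] [MulAction Γ C]
  [TopologicalSpace O] [MulAction Γ O] {c : C → Y} {o : O → Y}

/-- PROOF: `val` of a list over `C`: extend all the functions (`exists_extend_C0`); then
`pull c (val l') = val l` (`pull_val`, `hc.isProperMap`). `C` has a continuous action:
`c (g • x) = g • c x`. `exists_val_near` needs `ContinuousConstSMul Γ C`: it follows from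
`hc.toIsEmbedding` and `hec`. -/
theorem dense_pull_closed (hc : IsClosedEmbedding c) (hec : ∀ (g : Γ) x, c (g • x) = g • c x)
    {b : Fam Γ C} (hb : b ∈ cp Γ C) {ε : ℝ} (hε : 0 < ε) : ∃ a ∈ cp Γ Y, ‖b - pull c a‖ < ε := by
  have hcc : ContinuousConstSMul Γ C := ⟨fun g => by
    rw [hc.isInducing.continuous_iff]
    have h1 : (c ∘ fun x => g • x) = fun x => g • c x := funext fun x => hec g x
    rw [h1]
    exact hc.continuous.const_smul g⟩
  obtain ⟨l, -, hl⟩ := exists_val_near hb hε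
  choose E hE using fun f : C₀(C, ℂ) => exists_extend_C0 hc f
  refine ⟨val (mapL E l), val_mem _, ?_⟩
  rw [pull_val hc.isProperMap hec]
  have h2 : mapL (pullC c hc.isProperMap) (mapL E l) = l := by
    unfold mapL
    rw [List.map_map]
    conv_rhs => rw [← List.map_id l]
    refine List.map_congr_left fun d _ => ?_
    have h3 : pullC c hc.isProperMap (E d.f) = d.f := by
      ext x
      exact hE d.f x
    simp only [Function.comp_apply, h3, id]
  rw [h2]
  exact hl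

end PartLE2

section PartLE3

open scoped ENNReal Topology ZeroAtInfty
open Filter Topology

variable {Γ Y : Type} [Group Γ] [TopologicalSpace Y] [MulAction Γ Y] [ContinuousConstSMul Γ Y]
  [T2Space Y] [LocallyCompactSpace Y] {C O : Type} [TopologicalSpace C] [MulAction Γ C]
  [TopologicalSpace O] [MulAction Γ O] {c : C → Y} {o : O → Y}

/-- PROOF: choose `a` by `dense_pull_closed` for `ε/2`, then by `exists_cutoff` replace it by
`a - a * dg e`, which has the same restriction to `C` (`pull c (dg e) = 0` since `e = 0` on the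
invariant set `range c`) and norm `≤ ‖pull c a‖ + ε/2 ≤ ‖b‖ + ε`. -/
theorem dense_pull_closed' (hA : PropA Γ) (hc : IsClosedEmbedding c)
    (hec : ∀ (g : Γ) x, c (g • x) = g • c x) {b : Fam Γ C} (hb : b ∈ cp Γ C) {ε : ℝ}
    (hε : 0 < ε) : ∃ a ∈ cp Γ Y, ‖b - pull c a‖ < ε ∧ ‖a‖ ≤ ‖b‖ + ε := by
  obtain ⟨a₀, ha₀, hb₀⟩ := dense_pull_closed hc hec hb (half_pos hε)
  obtain ⟨e, -, -, hes, hen⟩ := exists_cutoff hA hc hec ha₀ (half_pos hε)
  have hpd : pull c (dg e : Fam Γ Y) = 0 := by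
    refine Fam.ext fun x => ?_
    refine ContinuousLinearMap.ext fun ξ => ?_
    refine lp.ext (funext fun p => ?_)
    obtain ⟨s, k⟩ := p
    have h1 : (dg e (c x) ξ : Γ × ℕ → ℂ) (s, k) = e (s • c x) * ξ (s, k) := dg_apply e (c x) ξ s k
    have h2 : e (s • c x) = 0 := by
      rw [← hec s x]
      by_contra h3
      exact hes (subset_tsupport _ h3) ⟨s • x, rfl⟩
    rw [h2, zero_mul] at h1
    exact h1
  have hpa : pull c (a₀ - a₀ * dg e) = pull c a₀ := by
    rw [map_sub, map_mul, hpd, mul_zero, sub_zero]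
  refine ⟨a₀ - a₀ * dg e, sub_mem ha₀ (mul_dg_mem ha₀ e), ?_, ?_⟩
  · rw [hpa]
    linarith
  · have h1 : ‖pull c a₀‖ ≤ ‖b‖ + ε / 2 := by
      have h2 : ‖pull c a₀‖ ≤ ‖b‖ + ‖b - pull c a₀‖ := by
        calc ‖pull c a₀‖ = ‖b - (b - pull c a₀)‖ := by rw [sub_sub_cancel]
          _ ≤ ‖b‖ + ‖b - pull c a₀‖ := norm_sub_le _ _
      linarith
    linarith

end PartLE3

section PartLE4

open scoped ENNReal Topology ZeroAtInfty
open Filter Topology

variable {Γ Y : Type} [Group Γ] [TopologicalSpace Y] [MulAction Γ Y] [ContinuousConstSMul Γ Y]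
  [T2Space Y] [LocallyCompactSpace Y] {C O : Type} [TopologicalSpace C] [MulAction Γ C]
  [TopologicalSpace O] [MulAction Γ O] {c : C → Y} {o : O → Y}

/-- PROOF: `mem`: `pull_mem_cp` (a closed embedding is proper). `lift`: if `b = 0` take `a = 0`.
Otherwise construct inductively `a_n ∈ cp Γ Y` with `b_0 = b`, `b_{n+1} = b_n - pull c a_n`,
`‖b_{n+1}‖ < 2^{-n-3} ‖b‖`, `‖a_n‖ ≤ ‖b_n‖ + 2^{-n-3} ‖b‖` (`dense_pull_closed'`); then
`∑ ‖a_n‖ ≤ ‖b‖ (1 + 1/8 + ∑_{n ≥ 1} (2^{-n-2} + 2^{-n-3})) ≤ 2 ‖b‖`, `a = ∑ a_n ∈ cp Γ Y` (closed),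
`pull c a = b` (continuity). -/
theorem normLift_closed (hA : PropA Γ) (hc : IsClosedEmbedding c)
    (hec : ∀ (g : Γ) x, c (g • x) = g • c x) :
    NormLift (pull c : Fam Γ Y →+* Fam Γ C) (cp Γ Y) (cp Γ C) := by
  have hmemc : ∀ a ∈ cp Γ Y, pull c a ∈ cp Γ C := pull_mem_cp hc.isProperMap hec
  refine ⟨hmemc, fun b hb => ?_⟩
  by_cases hb0 : b = 0
  · exact ⟨0, zero_mem _, by rw [map_zero, hb0], by simp⟩
  have hN : 0 < ‖b‖ := norm_pos_iff.mpr hb0
  -- one step
  have hstep : ∀ (n : ℕ) (x : cp Γ C), ∃ a ∈ cp Γ Y, ‖(x : Fam Γ C) - pull c a‖ <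
      (1 / 2) ^ (n + 3) * ‖b‖ ∧ ‖a‖ ≤ ‖(x : Fam Γ C)‖ + (1 / 2) ^ (n + 3) * ‖b‖ := fun n x =>
    dense_pull_closed' hA hc hec x.2 (by positivity)
  choose A hA1 hA2 hA3 using hstep
  let bs : ℕ → cp Γ C := fun n =>
    Nat.rec (motive := fun _ => cp Γ C) ⟨b, hb⟩
      (fun n x => ⟨(x : Fam Γ C) - pull c (A n x), sub_mem x.2 (hmemc _ (hA1 n x))⟩) n
  have hbs0 : ((bs 0 : cp Γ C) : Fam Γ C) = b := rfl
  have hbs : ∀ n, ((bs (n + 1) : cp Γ C) : Fam Γ C) = (bs n : Fam Γ C) - pull c (A n (bs n)) :=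
    fun n => rfl
  have hnb : ∀ n, ‖(bs (n + 1) : Fam Γ C)‖ ≤ (1 / 2) ^ (n + 3) * ‖b‖ := fun n => by
    rw [hbs]
    exact (hA2 n (bs n)).le
  have hna0 : ‖A 0 (bs 0)‖ ≤ (1 + 1 / 8) * ‖b‖ := by
    have h1 := hA3 0 (bs 0)
    rw [hbs0] at h1
    calc ‖A 0 (bs 0)‖ ≤ ‖b‖ + (1 / 2) ^ (0 + 3) * ‖b‖ := h1
      _ = (1 + 1 / 8) * ‖b‖ := by ring
  have hna : ∀ n, ‖A (n + 1) (bs (n + 1))‖ ≤ (3 / 16 * ‖b‖) * (1 / 2) ^ n := fun n => by
    have h1 := hA3 (n + 1) (bs (n + 1))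
    have h2 := hnb n
    calc ‖A (n + 1) (bs (n + 1))‖ ≤ (1 / 2) ^ (n + 3) * ‖b‖ + (1 / 2) ^ (n + 1 + 3) * ‖b‖ := by
          linarith
      _ = (3 / 16 * ‖b‖) * (1 / 2) ^ n := by
          rw [pow_add, pow_add, pow_add]
          ring
  have hgeo : HasSum (fun n : ℕ => (3 / 16 * ‖b‖) * (1 / 2 : ℝ) ^ n) ((3 / 16 * ‖b‖) * 2) :=
    hasSum_geometric_two.mul_left _
  have hs1 : Summable fun n => A (n + 1) (bs (n + 1)) := Summable.of_norm_bounded hgeo.summable hna
  have hs : Summable fun n => A n (bs n) := (summable_nat_add_iff 1).mp hs1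
  have hpart : ∀ n, pull c (∑ i ∈ Finset.range n, A i (bs i)) = b - bs n := by
    intro n
    induction n with
    | zero => rw [Finset.sum_range_zero, map_zero, hbs0, sub_self]
    | succ n ih =>
      rw [Finset.sum_range_succ, map_add, ih, hbs]
      abel
  have hlim := hs.hasSum.tendsto_sum_nat
  refine ⟨∑' n, A n (bs n), ?_, ?_, ?_⟩
  · exact isClosed_cp.mem_of_tendsto hlim
      (Filter.Eventually.of_forall fun n => sum_mem fun i _ => hA1 i (bs i))
  · have h1 : Tendsto (fun n => pull c (∑ i ∈ Finset.range n, A i (bs i))) atTop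
        (𝓝 (pull c (∑' n, A n (bs n)))) := ((continuous_pull c).tendsto _).comp hlim
    have h2 : Tendsto (fun n => (bs n : Fam Γ C)) atTop (𝓝 0) := by
      rw [← tendsto_add_atTop_iff_nat 1, tendsto_zero_iff_norm_tendsto_zero]
      have h3 : Tendsto (fun n : ℕ => (1 / 2 : ℝ) ^ (n + 3) * ‖b‖) atTop (𝓝 0) := by
        have h4 := (tendsto_pow_atTop_nhds_zero_of_lt_one (r := (1 / 2 : ℝ)) (by norm_num)
          (by norm_num)).comp (tendsto_add_atTop_nat 3)
        simpa using h4.mul_const ‖b‖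
      exact squeeze_zero (fun n => norm_nonneg _) hnb h3
    have h3 : Tendsto (fun n => b - (bs n : Fam Γ C)) atTop (𝓝 (b - 0)) :=
      tendsto_const_nhds.sub h2
    rw [sub_zero] at h3
    simp only [hpart] at h1
    exact tendsto_nhds_unique h1 h3
  · rw [hs.tsum_eq_zero_add]
    have h1 : ‖∑' n, A (n + 1) (bs (n + 1))‖ ≤ (3 / 16 * ‖b‖) * 2 := tsum_of_norm_bounded hgeo hna
    calc ‖A 0 (bs 0) + ∑' n, A (n + 1) (bs (n + 1))‖ ≤ ‖A 0 (bs 0)‖ + _ := norm_add_le _ _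
      _ ≤ (1 + 1 / 8) * ‖b‖ + (3 / 16 * ‖b‖) * 2 := add_le_add hna0 h1
      _ ≤ 2 * ‖b‖ := by nlinarith

/-- The exact sequence of a closed invariant subset. -/
theorem exactSeq_closed (hA : PropA Γ) (hc : IsClosedEmbedding c)
    (hec : ∀ (g : Γ) x, c (g • x) = g • c x) (ho : IsOpenEmbedding o)
    (heo : ∀ (g : Γ) x, o (g • x) = g • o x) (hco : Set.range o = (Set.range c)ᶜ) :
    ExactSeq (extF o : Fam Γ O →ₙ+* Fam Γ Y) (pull c) (cp Γ O) (cp Γ Y) (cp Γ C) where
  norm := norm_extF ho.injective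
  mem := extF_mem_cp ho heo
  ker _ ha h := mem_ext_of_pull_eq_zero hA hc hec ho heo hco ha h
  lift := normLift_closed hA hc hec
  closed₀ := isClosed_cp
  closed := isClosed_cp
  closed' := isClosed_cp

end PartLE4

section PartLF1

open scoped ENNReal Topology ZeroAtInfty
open Filter Topology

variable {Γ Y : Type} [Group Γ] [TopologicalSpace Y] [MulAction Γ Y] [ContinuousConstSMul Γ Y]
  [T2Space Y] [LocallyCompactSpace Y] {C : Type} [TopologicalSpace C] [MulAction Γ C]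
  {c : C → Y} {D : ℕ → Type} [∀ n, TopologicalSpace (D n)] [∀ n, MulAction Γ (D n)]
  {d : ∀ n, D n → Y}

/-- PROOF: `exists_cutoff` for `c` gives `e` with `‖a - a * dg e‖ ≤ ‖pull c a‖ + ε`, `tsupport e`
compact and disjoint from `range c = ⋂ n, range (d n)`; by compactness (`IsCompact.elim_directed_family_closed_of_isCompact`-like)
`tsupport e` is disjoint from `range (d n)` for large `n`, then `pull (d n) (dg e) = 0` (the range is
invariant), so `pull (d n) a = pull (d n) (a - a * dg e)`, `pull_norm_le`. -/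
theorem exists_pull_norm_le (hA : PropA Γ) (hc : IsClosedEmbedding c)
    (hec : ∀ (g : Γ) x, c (g • x) = g • c x) (hd : ∀ n, IsClosedEmbedding (d n))
    (hed : ∀ n (g : Γ) x, d n (g • x) = g • d n x) (hanti : ∀ n, Set.range (d (n + 1)) ⊆ Set.range (d n))
    (hinter : ⋂ n, Set.range (d n) = Set.range c) {a : Fam Γ Y} (ha : a ∈ cp Γ Y) {ε : ℝ}
    (hε : 0 < ε) : ∃ N, ∀ n, N ≤ n → ‖pull (d n) a‖ ≤ ‖pull c a‖ + ε := by
  obtain ⟨e, -, hcs, hts, hle⟩ := exists_cutoff hA hc hec ha hε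
  have hmono : Antitone fun n => Set.range (d n) := antitone_nat_of_succ_le hanti
  obtain ⟨N, hN⟩ := hcs.isCompact.elim_directed_family_closed (fun n => Set.range (d n))
    (fun n => (hd n).isClosed_range) (by
      rw [hinter]
      exact Set.disjoint_iff_inter_eq_empty.1 (Set.disjoint_left.2 fun x hx hx' => hts hx hx'))
    (by
      intro i j
      exact ⟨max i j, hmono (le_max_left i j), hmono (le_max_right i j)⟩)
  refine ⟨N, fun n hn => ?_⟩
  have h0 : ∀ z : D n, e (d n z) = 0 := by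
    intro z
    by_contra h
    have h1 : d n z ∈ tsupport e := subset_tsupport _ h
    have h2 : d n z ∈ Set.range (d N) := hmono hn ⟨z, rfl⟩
    have h3 : d n z ∈ tsupport e ∩ Set.range (d N) := ⟨h1, h2⟩
    rw [hN] at h3
    exact h3
  have h1 : pull (d n) (dg e) = (0 : Fam Γ (D n)) := by
    ext1 z
    refine ContinuousLinearMap.ext fun ξ => ?_
    ext1
    funext p
    have e1 : ((pull (d n) (dg e) : Fam Γ (D n)) z ξ : Γ × ℕ → ℂ) (p.1, p.2) =
        (dg e (d n z) ξ : Γ × ℕ → ℂ) (p.1, p.2) := rfl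
    rw [show p = (p.1, p.2) from rfl, e1, dg_apply, ← hed, h0, zero_mul]
    rfl
  have h2 : pull (d n) (a - a * dg e) = (pull (d n) a : Fam Γ (D n)) := by
    rw [map_sub, map_mul, h1, mul_zero, sub_zero]
  rw [← h2]
  exact (pull_norm_le _ _).trans hle

end PartLF1

section PartLF2

open scoped ENNReal Topology ZeroAtInfty
open Filter Topology

variable {Γ Y : Type} [Group Γ] [TopologicalSpace Y] [MulAction Γ Y] [ContinuousConstSMul Γ Y]
  [T2Space Y] [LocallyCompactSpace Y] {C : Type} [TopologicalSpace C] [MulAction Γ C]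
  {c : C → Y} {D : ℕ → Type} [∀ n, TopologicalSpace (D n)] [∀ n, MulAction Γ (D n)]
  {d : ∀ n, D n → Y}

/-- PROOF: lift `pull c u ∈ E1` to `e ∈ E1 (cp Γ Y)` (`E1_lift`, `normLift_closed`);
`w = u * e⁻¹ ∈ GL1 (cp Γ Y)` has `pull c w = 1`; `a = w - 1 ∈ cp Γ Y`, `pull c a = 0`, so
`‖pull (d n) a‖ < 1` for some `n` (`exists_pull_norm_le` with `ε = 1/2`), so
`pullU (d n) w ∈ E1` (`mem_E1_of_small`), and `u = w * e`, `E1_map`. -/
theorem continuity_inj (hA : PropA Γ) (hc : IsClosedEmbedding c)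
    (hec : ∀ (g : Γ) x, c (g • x) = g • c x) (hd : ∀ n, IsClosedEmbedding (d n))
    (hed : ∀ n (g : Γ) x, d n (g • x) = g • d n x) (hanti : ∀ n, Set.range (d (n + 1)) ⊆ Set.range (d n))
    (hinter : ⋂ n, Set.range (d n) = Set.range c) {u : (Fam Γ Y)ˣ} (hu : u ∈ GL1 (cp Γ Y))
    (hu' : pullU c u ∈ E1 (cp Γ C)) :
    ∃ n, pullU (d n) u ∈ E1 (cp Γ (D n)) := by
  obtain ⟨e, he, hev⟩ := E1_lift isClosed_cp isClosed_cp (normLift_closed hA hc hec) hu'
  have hw : u * e⁻¹ ∈ GL1 (cp Γ Y) := (GL1 _).mul_mem hu ((GL1 _).inv_mem (E1_le _ he))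
  have hw1 : pullU c (u * e⁻¹) = 1 := by
    have h1 : pullU c e = pullU c u := hev
    rw [map_mul, map_inv, h1, mul_inv_cancel]
  have h0 : (pull c (((u * e⁻¹ : (Fam Γ Y)ˣ) : Fam Γ Y) - 1) : Fam Γ C) = 0 := by
    rw [map_sub, map_one, ← pullU_val, hw1]
    simp
  obtain ⟨N, hN⟩ := exists_pull_norm_le hA hc hec hd hed hanti hinter hw.1
    (show (0 : ℝ) < 1 / 2 by norm_num)
  refine ⟨N, ?_⟩
  have h1 := hN N le_rfl
  rw [h0, norm_zero] at h1
  have h2 : pullU (d N) (u * e⁻¹) ∈ E1 (cp Γ (D N)) := by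
    refine mem_E1_of_small (GL1_map (pull_mem_cp (hd N).isProperMap (hed N)) hw) ?_
    have h3 : ((pullU (d N) (u * e⁻¹) : (Fam Γ (D N))ˣ) : Fam Γ (D N)) - 1 =
        pull (d N) (((u * e⁻¹ : (Fam Γ Y)ˣ) : Fam Γ Y) - 1) := by
      rw [map_sub, map_one]
      rfl
    rw [h3]
    linarith
  have h4 : pullU (d N) e ∈ E1 (cp Γ (D N)) :=
    E1_map (pull_norm_le (d N)) (pull_mem_cp (hd N).isProperMap (hed N)) he
  have h5 : pullU (d N) u = pullU (d N) (u * e⁻¹) * pullU (d N) e := by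
    rw [← map_mul, inv_mul_cancel_right]
  rw [h5]
  exact (E1 _).mul_mem h2 h4

end PartLF2

section PartLF3

open scoped ENNReal Topology ZeroAtInfty
open Filter Topology

variable {Γ Y : Type} [Group Γ] [TopologicalSpace Y] [MulAction Γ Y] [ContinuousConstSMul Γ Y]
  [T2Space Y] [LocallyCompactSpace Y] {C : Type} [TopologicalSpace C] [MulAction Γ C]
  {c : C → Y} {D : ℕ → Type} [∀ n, TopologicalSpace (D n)] [∀ n, MulAction Γ (D n)]
  {d : ∀ n, D n → Y}

/-- PROOF: choose `b, b' ∈ cp Γ Y` with `pull c b = v - 1`, `pull c b' = v⁻¹ - 1`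
(`normLift_closed`). `x = b + b' + b b'` and `y = b' + b + b' b` have `pull c x = 0 = pull c y`, so for
some `n` `‖pull (d n) x‖ < 1`, `‖pull (d n) y‖ < 1` (`exists_pull_norm_le`). By
`exists_unit_of_almost_inverse` in `cp Γ (D n)` there is `w ∈ GL1 (cp Γ (D n))` with
`w = 1 + pull (d n) b`; `pull (ι n) w = 1 + pull c b = v` as `d n ∘ ι n = c`. -/
theorem continuity_surj (hA : PropA Γ) (hc : IsClosedEmbedding c)
    (hec : ∀ (g : Γ) x, c (g • x) = g • c x) (hd : ∀ n, IsClosedEmbedding (d n))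
    (hed : ∀ n (g : Γ) x, d n (g • x) = g • d n x) (hanti : ∀ n, Set.range (d (n + 1)) ⊆ Set.range (d n))
    (hinter : ⋂ n, Set.range (d n) = Set.range c) (ι : ∀ n, C → D n) (hι : ∀ n x, d n (ι n x) = c x)
    {v : (Fam Γ C)ˣ} (hv : v ∈ GL1 (cp Γ C)) :
    ∃ n, ∃ w ∈ GL1 (cp Γ (D n)), pullU (ι n) w = v := by
  have hL := normLift_closed hA hc hec
  obtain ⟨b, hb, hbv, -⟩ := hL.lift _ hv.1
  obtain ⟨b', hb', hbv', -⟩ := hL.lift _ hv.2
  have hv1 : ((v : Fam Γ C) - 1) + (((v⁻¹ : (Fam Γ C)ˣ) : Fam Γ C) - 1) +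
      ((v : Fam Γ C) - 1) * (((v⁻¹ : (Fam Γ C)ˣ) : Fam Γ C) - 1) = 0 := by
    have h1 : (v : Fam Γ C) * ((v⁻¹ : (Fam Γ C)ˣ) : Fam Γ C) = 1 := Units.mul_inv v
    have h2 : ((v : Fam Γ C) - 1) * (((v⁻¹ : (Fam Γ C)ˣ) : Fam Γ C) - 1) =
        (v : Fam Γ C) * ((v⁻¹ : (Fam Γ C)ˣ) : Fam Γ C) - v - ((v⁻¹ : (Fam Γ C)ˣ) : Fam Γ C) + 1 := by
      noncomm_ring
    rw [h2, h1]
    abel
  have hv2 : (((v⁻¹ : (Fam Γ C)ˣ) : Fam Γ C) - 1) + ((v : Fam Γ C) - 1) +
      (((v⁻¹ : (Fam Γ C)ˣ) : Fam Γ C) - 1) * ((v : Fam Γ C) - 1) = 0 := by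
    have h1 : ((v⁻¹ : (Fam Γ C)ˣ) : Fam Γ C) * (v : Fam Γ C) = 1 := Units.inv_mul v
    have h2 : (((v⁻¹ : (Fam Γ C)ˣ) : Fam Γ C) - 1) * ((v : Fam Γ C) - 1) =
        ((v⁻¹ : (Fam Γ C)ˣ) : Fam Γ C) * (v : Fam Γ C) - v - ((v⁻¹ : (Fam Γ C)ˣ) : Fam Γ C) + 1 := by
      noncomm_ring
    rw [h2, h1]
    abel
  have hx0 : (pull c (b + b' + b * b') : Fam Γ C) = 0 := by
    rw [map_add, map_add, map_mul, hbv, hbv']
    exact hv1
  have hy0 : (pull c (b' + b + b' * b) : Fam Γ C) = 0 := by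
    rw [map_add, map_add, map_mul, hbv, hbv']
    exact hv2
  obtain ⟨N, hN⟩ := exists_pull_norm_le hA hc hec hd hed hanti hinter
    (add_mem (add_mem hb hb') (mul_mem hb hb')) (show (0 : ℝ) < 1 / 2 by norm_num)
  obtain ⟨N', hN'⟩ := exists_pull_norm_le hA hc hec hd hed hanti hinter
    (add_mem (add_mem hb' hb) (mul_mem hb' hb)) (show (0 : ℝ) < 1 / 2 by norm_num)
  set n : ℕ := max N N' with hn
  have h1 := hN n (le_max_left _ _)
  have h2 := hN' n (le_max_right _ _)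
  rw [hx0, norm_zero, map_add, map_add, map_mul] at h1
  rw [hy0, norm_zero, map_add, map_add, map_mul] at h2
  have hm := pull_mem_cp (hd n).isProperMap (hed n)
  obtain ⟨w, hw, hwv⟩ := exists_unit_of_almost_inverse isClosed_cp (hm b hb) (hm b' hb')
    (by linarith) (by linarith)
  refine ⟨n, w, hw, Units.ext ?_⟩
  have h3 : (pull (ι n) (pull (d n) b : Fam Γ (D n)) : Fam Γ C) = pull c b := by
    ext1 x
    change b (d n (ι n x)) = b (c x)
    rw [hι]
  rw [pullU_val, hwv, map_add, map_one, h3, hbv]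
  abel

end PartLF3

end Pool.Agent.Lib.MP_aa9b81_an.Cut
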